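import Pool.Agent.H6.DD.Dual

/-!
# The lattice `A_n`, whose dual lattice has a diagonally dominant Gram matrix (helper6)
-/

set_option autoImplicit false

open Matrix Finset

namespace Pool.Agent.H6.DD

/-- A matrix with `Aᵀ A = 1 + J` (the Gram matrix `2` on, `1` off the diagonal, of `A_n`). -/
noncomputable def An (n : ℕ) : Matrix (Fin n) (Fin n) ℝ :=
  1 + ((Real.sqrt (n + 1) - 1) / n) • Matrix.of (fun _ _ => (1 : ℝ))

lemma An_sq (n : ℕ) (hn : 0 < n) : (An n)ᵀ * An n = 1 + Matrix.of (fun _ _ => (1 : ℝ)) := by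
  have hn' : (n : ℝ) ≠ 0 := by positivity
  have hs : Real.sqrt (n + 1) ^ 2 = n + 1 := Real.sq_sqrt (by positivity)
  set c : ℝ := (Real.sqrt (n + 1) - 1) / n with hc
  have hc2 : c * c * n + 2 * c = 1 := by
    rw [hc]; field_simp; nlinarith
  have hAT : (An n)ᵀ = An n := by
    ext i j
    simp [An, Matrix.one_apply, eq_comm]
  rw [hAT]
  ext i j
  rw [Matrix.mul_apply]
  have h1 : ∀ i j, An n i j = (if i = j then 1 else 0) + c := by
    intro i j
    simp [An, Matrix.one_apply, hc]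
  simp only [h1, add_mul, mul_add, Finset.sum_add_distrib, ite_mul, mul_ite, one_mul, mul_one,
    zero_mul, mul_zero, Finset.sum_ite_eq, Finset.sum_ite_eq', Finset.mem_univ, if_true,
    Matrix.add_apply, Matrix.one_apply, Matrix.of_apply, Finset.sum_const, Finset.card_univ,
    Fintype.card_fin, nsmul_eq_mul]
  linarith

lemma An_det_sq (n : ℕ) (hn : 0 < n) : (An n).det ^ 2 = n + 1 := by
  have h1 : ((An n)ᵀ * An n).det = n + 1 := by
    rw [An_sq n hn]
    have h2 : (1 : Matrix (Fin n) (Fin n) ℝ) + Matrix.of (fun _ _ => (1 : ℝ))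
        = 1 + Matrix.replicateCol Unit (1 : Fin n → ℝ) * Matrix.replicateRow Unit (1 : Fin n → ℝ) := by
      ext i j
      simp [Matrix.mul_apply]
    rw [h2, Matrix.det_one_add_replicateCol_mul_replicateRow]
    simp [dotProduct]
    ring
  rw [Matrix.det_mul, Matrix.det_transpose] at h1
  rw [← h1]; ring

lemma An_det_ne (n : ℕ) (hn : 0 < n) : (An n).det ≠ 0 := by
  intro h
  have := An_det_sq n hn
  rw [h] at this
  have h2 : (0 : ℝ) ≤ n := by positivity
  norm_num at this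
  linarith

lemma An_sqlen (n : ℕ) (hn : 0 < n) (x : Fin n → ℤ) :
    sq (An n) x = ((∑ i, x i ^ 2 + (∑ i, x i) ^ 2 : ℤ) : ℝ) := by
  have h1 : sq (An n) x = (fun j => (x j : ℝ)) ⬝ᵥ ((An n)ᵀ * An n).mulVec (fun j => (x j : ℝ)) := by
    rw [← Matrix.mulVec_mulVec, Matrix.dotProduct_mulVec, Matrix.vecMul_transpose]
    unfold sq
    simp only [dotProduct]
    exact Finset.sum_congr rfl fun i _ => by ring
  rw [h1, An_sq n hn, Matrix.add_mulVec, Matrix.one_mulVec]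
  simp only [dotProduct, Pi.add_apply, Matrix.mulVec, Matrix.of_apply, one_mul, mul_add,
    Finset.sum_add_distrib]
  push_cast
  congr 1
  · exact Finset.sum_congr rfl fun i _ => by ring
  · rw [← Finset.sum_mul, pow_two]

lemma even_sq_sub' (a : ℤ) : Even (a ^ 2 - a) := by
  have : a ^ 2 - a = (a - 1) * ((a - 1) + 1) := by ring
  rw [this]
  exact Int.even_mul_succ_self (a - 1)

lemma An_lam (n : ℕ) (hn : 0 < n) : lam (An n) = 2 := by
  have hne : (Pi.single ⟨0, hn⟩ 1 : Fin n → ℤ) ≠ 0 := by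
    intro h
    have := congrFun h ⟨0, hn⟩
    simp at this
  apply le_antisymm
  · refine (lam_le (An n) _ hne).trans (le_of_eq ?_)
    rw [An_sqlen n hn]
    have h1 : ∑ i, (Pi.single (⟨0, hn⟩ : Fin n) (1 : ℤ) : Fin n → ℤ) i ^ 2 = 1 := by
      rw [Finset.sum_eq_single (⟨0, hn⟩ : Fin n)]
      · simp
      · intro i _ hi; simp [Pi.single_apply, hi]
      · simp
    have h2 : ∑ i, (Pi.single (⟨0, hn⟩ : Fin n) (1 : ℤ) : Fin n → ℤ) i = 1 := by
      simp
    rw [h1, h2]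
    norm_num
  · have : Nonempty {w : Fin n → ℤ // w ≠ 0} := ⟨⟨_, hne⟩⟩
    refine le_ciInf fun w => ?_
    rw [An_sqlen n hn]
    have h1 : 0 < ∑ i, w.1 i ^ 2 := by
      obtain ⟨i, hi⟩ := Function.ne_iff.1 w.2
      have h2 : w.1 i ^ 2 ≤ ∑ i, w.1 i ^ 2 :=
        Finset.single_le_sum (f := fun i => w.1 i ^ 2) (fun i _ => sq_nonneg _) (Finset.mem_univ i)
      have h3 : 0 < w.1 i ^ 2 := by
        have : w.1 i ≠ 0 := hi
        positivity
      linarith
    have h2 : Even (∑ i, w.1 i ^ 2 + (∑ i, w.1 i) ^ 2) := by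
      have h3 : ∑ i, w.1 i ^ 2 + (∑ i, w.1 i) ^ 2
          = ∑ i, (w.1 i ^ 2 - w.1 i) + ((∑ i, w.1 i) ^ 2 - ∑ i, w.1 i) + 2 * ∑ i, w.1 i := by
        rw [Finset.sum_sub_distrib]; ring
      rw [h3]
      exact ((Finset.even_sum _ fun i _ => even_sq_sub' _).add (even_sq_sub' _)).add
        (even_two_mul _)
    obtain ⟨r, hr⟩ := h2
    have h4 := sq_nonneg (∑ i, w.1 i)
    have h5 : 2 ≤ ∑ i, w.1 i ^ 2 + (∑ i, w.1 i) ^ 2 := by
      have h6 : 0 < ∑ i, w.1 i ^ 2 + (∑ i, w.1 i) ^ 2 := by linarith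
      omega
    exact_mod_cast h5

lemma An_gam (n : ℕ) (hn : 0 < n) : gam (An n) = 2 * ((n : ℝ) + 1) ^ (-(1 : ℝ) / n) := by
  have h1 : |(An n).det| = ((n : ℝ) + 1) ^ ((1 : ℝ) / 2) := by
    rw [← An_det_sq n hn, ← Real.sqrt_eq_rpow, Real.sqrt_sq_eq_abs]
  rw [gam_eq, An_lam n hn, h1, ← Real.rpow_mul (by positivity), div_eq_mul_inv,
    ← Real.rpow_neg (by positivity)]
  congr 2
  ring

lemma An_dual (n : ℕ) (hn : 0 < n) (i : Fin n) : RowDom 1 (gram ((An n)ᵀ)⁻¹ 1) i := by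
  have hdet : IsUnit (An n).det := isUnit_iff_ne_zero.2 (An_det_ne n hn)
  have h1 : gram ((An n)ᵀ)⁻¹ 1 = ((An n)ᵀ * An n)⁻¹ := by
    unfold gram
    have h2 : (1 : Matrix (Fin n) (Fin n) ℤ).map (fun z : ℤ => (z : ℝ)) = 1 := by
      ext i j; simp [Matrix.one_apply]
    rw [h2, Matrix.mul_one, Matrix.mul_inv_rev, Matrix.transpose_nonsing_inv,
      Matrix.transpose_transpose]
  have hn1 : ((n : ℝ) + 1) ≠ 0 := by positivity
  have h3 : ((An n)ᵀ * An n)⁻¹ = 1 - (1 / ((n : ℝ) + 1)) • Matrix.of (fun _ _ => (1 : ℝ)) := by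
    apply Matrix.inv_eq_right_inv
    rw [An_sq n hn]
    have hJ : (Matrix.of (fun _ _ => (1 : ℝ)) : Matrix (Fin n) (Fin n) ℝ)
        * Matrix.of (fun _ _ => (1 : ℝ)) = (n : ℝ) • Matrix.of (fun _ _ => (1 : ℝ)) := by
      ext i j; simp [Matrix.mul_apply]
    rw [Matrix.mul_sub, Matrix.mul_one, Matrix.add_mul, Matrix.one_mul, Matrix.mul_smul, hJ,
      smul_smul]
    ext i j
    simp only [Matrix.sub_apply, Matrix.add_apply, Matrix.smul_apply, Matrix.of_apply,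
      smul_eq_mul, mul_one]
    field_simp
    ring
  have h4 : ∀ j, gram ((An n)ᵀ)⁻¹ 1 i j = (if i = j then 1 else 0) - 1 / ((n : ℝ) + 1) := by
    intro j
    rw [h1, h3]
    simp [Matrix.one_apply]
  unfold RowDom
  rw [h4 i, if_pos rfl]
  have h5 : ∑ j ∈ univ.erase i, |gram ((An n)ᵀ)⁻¹ 1 i j|
      = ∑ j ∈ univ.erase i, 1 / ((n : ℝ) + 1) := by
    refine Finset.sum_congr rfl fun j hj => ?_
    rw [h4 j, if_neg (Finset.ne_of_mem_erase hj).symm, zero_sub, abs_neg,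
      abs_of_nonneg (by positivity)]
  rw [h5, Finset.sum_const, Finset.card_erase_of_mem (Finset.mem_univ i), Finset.card_univ,
    Fintype.card_fin, nsmul_eq_mul]
  have h6 : ((n - 1 : ℕ) : ℝ) = n - 1 := by
    rw [Nat.cast_sub hn]; simp
  rw [h6]
  field_simp
  linarith

end Pool.Agent.H6.DD
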