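import Pool.Agent.H6.DD.Ineq

/-!
# Diagonally dominant forms: the ternary case and the induction (helper6)
-/

set_option autoImplicit false

open Matrix Finset

namespace Pool.Agent.H6.DD

lemma keyNeg (a b c p q r lam : ℝ) (hlam : 0 ≤ lam) (hp : p ≤ 0) (hq : q ≤ 0) (hr : r ≤ 0)
    (ha : 0 ≤ a + p + q) (hb : 0 ≤ b + p + r) (hc : 0 ≤ c + q + r)
    (h : ∀ x y z : ℤ, ¬ (x = 0 ∧ y = 0 ∧ z = 0) →
      lam ≤ a * x ^ 2 + b * y ^ 2 + c * z ^ 2 + 2 * p * x * y + 2 * q * x * z + 2 * r * y * z) :
    4 * (lam / 2) ^ 3 ≤ a * b * c + 2 * p * q * r - a * r ^ 2 - b * q ^ 2 - c * p ^ 2 := by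
  set M : Matrix (Fin 3) (Fin 3) ℝ := !![a, p, q; p, b, r; q, r, c] with hM
  have h1 : Dom M := by
    refine ⟨fun i j => ?_, fun i => ?_⟩
    · fin_cases i <;> fin_cases j <;> simp [hM]
    · fin_cases i
      · simp only [hM, Fin.sum_univ_three]
        simp
        rw [abs_of_nonneg (by linarith : (0 : ℝ) ≤ a), abs_of_nonpos hp, abs_of_nonpos hq]
        linarith
      · simp only [hM, Fin.sum_univ_three]
        simp
        rw [abs_of_nonneg (by linarith : (0 : ℝ) ≤ b), abs_of_nonpos hp, abs_of_nonpos hr]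
        linarith
      · simp only [hM, Fin.sum_univ_three]
        simp
        rw [abs_of_nonneg (by linarith : (0 : ℝ) ≤ c), abs_of_nonpos hq, abs_of_nonpos hr]
        linarith
  have h2 : Neg M := by
    intro i j hij
    fin_cases i <;> fin_cases j <;> simp_all
  have h3 : AtLeast M lam := by
    intro x hx
    have h4 := h (x 0) (x 1) (x 2) (by
      rintro ⟨h0, h1, h2⟩
      apply hx
      funext i
      fin_cases i <;> simp_all)
    refine h4.trans (le_of_eq ?_)
    unfold qf
    simp only [hM, Fin.sum_univ_three]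
    simp
    ring
  have h4 := det_ge_of_neg lam hlam 3 M h1 h2 h3
  have h5 : M.det = a * b * c + 2 * p * q * r - a * r ^ 2 - b * q ^ 2 - c * p ^ 2 := by
    rw [Matrix.det_fin_three]
    simp [hM]
    ring
  rw [h5] at h4
  push_cast at h4
  linarith

/-- all off-diagonal entries nonnegative, `p` the smallest -/
lemma keyPos (a b c p q r lam : ℝ) (hlam : 0 ≤ lam) (hp : 0 ≤ p) (hpq : p ≤ q) (hpr : p ≤ r)
    (ha : p + q ≤ a) (hb : p + r ≤ b) (hc : q + r ≤ c)
    (h : ∀ x y z : ℤ, ¬ (x = 0 ∧ y = 0 ∧ z = 0) →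
      lam ≤ a * x ^ 2 + b * y ^ 2 + c * z ^ 2 + 2 * p * x * y + 2 * q * x * z + 2 * r * y * z) :
    4 * (lam / 2) ^ 3 ≤ a * b * c + 2 * p * q * r - a * r ^ 2 - b * q ^ 2 - c * p ^ 2 := by
  have h1 := keyNeg a b (a + c - 2 * q) (-p) (q - a) (p - r) lam hlam (by linarith) (by linarith)
    (by linarith) (by linarith) (by linarith) (by linarith) (fun x y z hxyz => by
      have h2 := h (x - z) (-y) z (by
        rintro ⟨h0, h1, h2⟩
        apply hxyz
        refine ⟨by omega, by omega, h2⟩)
      refine h2.trans (le_of_eq ?_)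
      push_cast
      ring)
  refine h1.trans (le_of_eq ?_)
  ring

lemma keyPos' (a b c p q r lam : ℝ) (hlam : 0 ≤ lam) (hp : 0 ≤ p) (hq : 0 ≤ q) (hr : 0 ≤ r)
    (ha : p + q ≤ a) (hb : p + r ≤ b) (hc : q + r ≤ c)
    (h : ∀ x y z : ℤ, ¬ (x = 0 ∧ y = 0 ∧ z = 0) →
      lam ≤ a * x ^ 2 + b * y ^ 2 + c * z ^ 2 + 2 * p * x * y + 2 * q * x * z + 2 * r * y * z) :
    4 * (lam / 2) ^ 3 ≤ a * b * c + 2 * p * q * r - a * r ^ 2 - b * q ^ 2 - c * p ^ 2 := by
  rcases le_total p q with h1 | h1
  · rcases le_total p r with h2 | h2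
    · exact keyPos a b c p q r lam hlam hp h1 h2 ha hb hc h
    · -- r ≤ p ≤ q : swap so that r is first: order (b, c, a) with pairs (r, p, q)
      have h3 := keyPos b c a r p q lam hlam hr h2 (h2.trans h1) (by linarith) (by linarith)
        (by linarith) (fun x y z hxyz => by
          have h4 := h z x y (by tauto)
          refine h4.trans (le_of_eq ?_)
          ring)
      refine h3.trans (le_of_eq ?_)
      ring
  · rcases le_total q r with h2 | h2
    · -- q smallest: order (a, c, b) with pairs (q, p, r)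
      have h3 := keyPos a c b q p r lam hlam hq h1 h2 (by linarith) (by linarith)
        (by linarith) (fun x y z hxyz => by
          have h4 := h x z y (by tauto)
          refine h4.trans (le_of_eq ?_)
          ring)
      refine h3.trans (le_of_eq ?_)
      ring
    · have h3 := keyPos b c a r p q lam hlam hr (h2.trans h1) h2 (by linarith) (by linarith)
        (by linarith) (fun x y z hxyz => by
          have h4 := h z x y (by tauto)
          refine h4.trans (le_of_eq ?_)
          ring)
      refine h3.trans (le_of_eq ?_)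
      ring

lemma keyAll (a b c p q r lam : ℝ) (hlam : 0 ≤ lam)
    (ha : |p| + |q| ≤ a) (hb : |p| + |r| ≤ b) (hc : |q| + |r| ≤ c)
    (h : ∀ x y z : ℤ, ¬ (x = 0 ∧ y = 0 ∧ z = 0) →
      lam ≤ a * x ^ 2 + b * y ^ 2 + c * z ^ 2 + 2 * p * x * y + 2 * q * x * z + 2 * r * y * z) :
    4 * (lam / 2) ^ 3 ≤ a * b * c + 2 * p * q * r - a * r ^ 2 - b * q ^ 2 - c * p ^ 2 := by
  rcases le_total 0 p with hp | hp <;> rcases le_total 0 q with hq | hq <;>
    rcases le_total 0 r with hr | hr
  · rw [abs_of_nonneg hp, abs_of_nonneg hq] at ha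
    rw [abs_of_nonneg hp, abs_of_nonneg hr] at hb
    rw [abs_of_nonneg hq, abs_of_nonneg hr] at hc
    exact keyPos' a b c p q r lam hlam hp hq hr ha hb hc h
  · -- + + - : flip x
    rw [abs_of_nonneg hp, abs_of_nonneg hq] at ha
    rw [abs_of_nonneg hp, abs_of_nonpos hr] at hb
    rw [abs_of_nonneg hq, abs_of_nonpos hr] at hc
    have h3 := keyNeg a b c (-p) (-q) r lam hlam (by linarith) (by linarith) hr (by linarith)
      (by linarith) (by linarith) (fun x y z hxyz => by
        have h4 := h (-x) y z (by simpa using hxyz)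
        refine h4.trans (le_of_eq ?_)
        push_cast
        ring)
    refine h3.trans (le_of_eq ?_)
    ring
  · -- + - + : flip y
    rw [abs_of_nonneg hp, abs_of_nonpos hq] at ha
    rw [abs_of_nonneg hp, abs_of_nonneg hr] at hb
    rw [abs_of_nonpos hq, abs_of_nonneg hr] at hc
    have h3 := keyNeg a b c (-p) q (-r) lam hlam (by linarith) (by linarith) (by linarith)
      (by linarith) (by linarith) (by linarith) (fun x y z hxyz => by
        have h4 := h x (-y) z (by simpa using hxyz)
        refine h4.trans (le_of_eq ?_)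
        push_cast
        ring)
    refine h3.trans (le_of_eq ?_)
    ring
  · -- + - - : flip z ↦ -z gives + + +
    rw [abs_of_nonneg hp, abs_of_nonpos hq] at ha
    rw [abs_of_nonneg hp, abs_of_nonpos hr] at hb
    rw [abs_of_nonpos hq, abs_of_nonpos hr] at hc
    have h3 := keyPos' a b c p (-q) (-r) lam hlam hp (by linarith) (by linarith)
      (by linarith) (by linarith) (by linarith) (fun x y z hxyz => by
        have h4 := h x y (-z) (by simpa using hxyz)
        refine h4.trans (le_of_eq ?_)
        push_cast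
        ring)
    refine h3.trans (le_of_eq ?_)
    ring
  · -- - + + : flip z
    rw [abs_of_nonpos hp, abs_of_nonneg hq] at ha
    rw [abs_of_nonpos hp, abs_of_nonneg hr] at hb
    rw [abs_of_nonneg hq, abs_of_nonneg hr] at hc
    have h3 := keyNeg a b c p (-q) (-r) lam hlam hp (by linarith) (by linarith)
      (by linarith) (by linarith) (by linarith) (fun x y z hxyz => by
        have h4 := h x y (-z) (by simpa using hxyz)
        refine h4.trans (le_of_eq ?_)
        push_cast
        ring)
    refine h3.trans (le_of_eq ?_)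
    ring
  · -- - + - : flip y gives + + +
    rw [abs_of_nonpos hp, abs_of_nonneg hq] at ha
    rw [abs_of_nonpos hp, abs_of_nonpos hr] at hb
    rw [abs_of_nonneg hq, abs_of_nonpos hr] at hc
    have h3 := keyPos' a b c (-p) q (-r) lam hlam (by linarith) hq (by linarith)
      (by linarith) (by linarith) (by linarith) (fun x y z hxyz => by
        have h4 := h x (-y) z (by simpa using hxyz)
        refine h4.trans (le_of_eq ?_)
        push_cast
        ring)
    refine h3.trans (le_of_eq ?_)
    ring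
  · -- - - + : flip x gives + + +
    rw [abs_of_nonpos hp, abs_of_nonpos hq] at ha
    rw [abs_of_nonpos hp, abs_of_nonneg hr] at hb
    rw [abs_of_nonpos hq, abs_of_nonneg hr] at hc
    have h3 := keyPos' a b c (-p) (-q) r lam hlam (by linarith) (by linarith) hr
      (by linarith) (by linarith) (by linarith) (fun x y z hxyz => by
        have h4 := h (-x) y z (by simpa using hxyz)
        refine h4.trans (le_of_eq ?_)
        push_cast
        ring)
    refine h3.trans (le_of_eq ?_)
    ring
  · rw [abs_of_nonpos hp, abs_of_nonpos hq] at ha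
    rw [abs_of_nonpos hp, abs_of_nonpos hr] at hb
    rw [abs_of_nonpos hq, abs_of_nonpos hr] at hc
    exact keyNeg a b c p q r lam hlam hp hq hr (by linarith) (by linarith) (by linarith) h

lemma diag_abs {n : ℕ} {M : Matrix (Fin n) (Fin n) ℝ} (hM : Dom M) (i : Fin n) :
    |M i i| = M i i := by
  apply abs_of_nonneg
  have h4 := hM.2 i
  have h5 : 0 ≤ ∑ k, |M i k| := Finset.sum_nonneg fun k _ => abs_nonneg _
  linarith

theorem det_ge_three (M : Matrix (Fin 3) (Fin 3) ℝ) (lam : ℝ) (hlam : 0 ≤ lam) (hM : Dom M)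
    (h : AtLeast M lam) : 4 * (lam / 2) ^ 3 ≤ M.det := by
  have h10 := hM.1 1 0
  have h20 := hM.1 2 0
  have h21 := hM.1 2 1
  have e0 := hM.2 0
  have e1 := hM.2 1
  have e2 := hM.2 2
  rw [Fin.sum_univ_three] at e0 e1 e2
  rw [diag_abs hM 0] at e0
  rw [diag_abs hM 1, h10] at e1
  rw [diag_abs hM 2, h20, h21] at e2
  have h1 := keyAll (M 0 0) (M 1 1) (M 2 2) (M 0 1) (M 0 2) (M 1 2) lam hlam (by linarith)
    (by linarith) (by linarith) (fun x y z hxyz => by
      have h2 := h ![x, y, z] (by
        intro h0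
        apply hxyz
        refine ⟨by simpa using congrFun h0 0, by simpa using congrFun h0 1,
          by simpa using congrFun h0 2⟩)
      refine h2.trans (le_of_eq ?_)
      unfold qf
      simp only [Fin.sum_univ_three]
      simp
      rw [h10, h20, h21]
      ring)
  refine h1.trans (le_of_eq ?_)
  rw [Matrix.det_fin_three, h10, h20, h21]
  ring

/-- **Diagonally dominant forms in `n + 3` variables.** -/
theorem det_ge_of_dom (lam : ℝ) (hlam : 0 ≤ lam) : ∀ (n : ℕ)
    (M : Matrix (Fin (n + 3)) (Fin (n + 3)) ℝ),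
    Dom M → AtLeast M lam → 4 * (lam / 2) ^ (n + 3) ≤ M.det := by
  intro n
  induction n with
  | zero => intro M h1 h2; exact det_ge_three M lam hlam h1 h2
  | succ n ih =>
    intro M hdom hM
    set D : ℝ := 4 * (lam / 2) ^ (n + 3) with hD
    have hD0 : 0 ≤ D := by positivity
    have h := step M hdom D (fun j => ih _ (dom_cut_zero hdom j) (hM.cut j 0))
      (fun j p₀ => by
        rcases le_total 0 (M j (j.succAbove p₀)) with h0 | h0
        · have hs : ((1 : ℤ) : ℝ) * ((1 : ℤ) : ℝ) = 1 := by norm_num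
          have hsM : ((1 : ℤ) : ℝ) * M j (j.succAbove p₀) = |M j (j.succAbove p₀)| := by
            rw [abs_of_nonneg h0]
            push_cast; ring
          exact ⟨1, hs, hsM, ih _ (dom_cut_pair hdom j p₀ 1 hs hsM) (hM.cut j _)⟩
        · have hs : ((-1 : ℤ) : ℝ) * ((-1 : ℤ) : ℝ) = 1 := by norm_num
          have hsM : ((-1 : ℤ) : ℝ) * M j (j.succAbove p₀) = |M j (j.succAbove p₀)| := by
            rw [abs_of_nonpos h0]
            push_cast; ring
          exact ⟨-1, hs, hsM, ih _ (dom_cut_pair hdom j p₀ (-1) hs hsM) (hM.cut j _)⟩)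
    have h1 : (n + 3 + 1) * lam ≤ ∑ i, (M i i + (2 * M i i - ∑ k, |M i k|)) := by
      have h6 : ∑ _i : Fin (n + 3 + 1), lam ≤ ∑ i, (M i i + (2 * M i i - ∑ k, |M i k|)) :=
        Finset.sum_le_sum fun i _ => by
          have := diag_ge hM i
          have h2 := hdom.2 i
          linarith
      rw [Finset.sum_const, Finset.card_univ, Fintype.card_fin, nsmul_eq_mul] at h6
      push_cast at h6
      linarith
    have h7 := mul_le_mul_of_nonneg_left h1 hD0
    have h8 : D * ((n + 3 + 1) * lam) ≤ 2 * ((n + 3 : ℕ) + 1) * M.det := h7.trans h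
    push_cast at h8
    have h9 : D * ((n + 3 + 1) * lam) = 2 * ((n : ℝ) + 3 + 1) * (4 * (lam / 2) ^ (n + 1 + 3)) := by
      rw [hD, show n + 1 + 3 = (n + 3) + 1 by ring, pow_succ]; ring
    rw [h9] at h8
    exact le_of_mul_le_mul_left h8 (by positivity)

end Pool.Agent.H6.DD
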