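import Mathlib

/-!
# Definitions: Hermite invariant, diagonally dominated rows of Gram matrices (helper6)
-/

set_option autoImplicit false

open Matrix Finset

namespace Pool.Agent.H6.DD

/-- The Hermite invariant `λ₁² / det^(2/n)` of the lattice `A ℤⁿ`: the infimum of the squared
lengths of its nonzero vectors, divided by `|det A|^(2/n)`. -/
noncomputable def gam {n : ℕ} (A : Matrix (Fin n) (Fin n) ℝ) : ℝ :=
  (⨅ w : {w : Fin n → ℤ // w ≠ 0}, ∑ i, (A.mulVec (fun j => (w.1 j : ℝ))) i ^ 2)
    / |A.det| ^ ((2 : ℝ) / (n : ℝ))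

/-- Hermite's constant `γ_n`, exactly as in the frozen statement `S14187`. -/
noncomputable def hermite (n : ℕ) : ℝ := ⨆ A : {A : Matrix (Fin n) (Fin n) ℝ // A.det ≠ 0}, gam A.1

/-- The Gram matrix of the vectors `A u_j`, where the `u_j` are the columns of the integral matrix
`U`. These vectors are a basis of the lattice `A ℤⁿ` if `det U = ± 1`, and generate a sublattice
of index `|det U|` if `det U ≠ 0`. -/
def gram {n : ℕ} (A : Matrix (Fin n) (Fin n) ℝ) (U : Matrix (Fin n) (Fin n) ℤ) :
    Matrix (Fin n) (Fin n) ℝ :=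
  (A * U.map (fun z : ℤ => (z : ℝ)))ᵀ * (A * U.map (fun z : ℤ => (z : ℝ)))

/-- The `i`-th row of `G` is dominated by its diagonal element, with the factor `κ`:
`∑_{j ≠ i} |G_ij| ≤ κ G_ii`. For `κ = 1` this is diagonal dominance of the row. -/
def RowDom {n : ℕ} (κ : ℝ) (G : Matrix (Fin n) (Fin n) ℝ) (i : Fin n) : Prop :=
  ∑ j ∈ univ.erase i, |G i j| ≤ κ * G i i

/-- The Hermite invariants of the lattices of rank `n` that have a basis for which at most `k`
rows of the Gram matrix are not diagonally dominant. -/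
def invariants (n k : ℕ) : Set ℝ :=
  {g | ∃ A : Matrix (Fin n) (Fin n) ℝ, A.det ≠ 0 ∧
    (∃ U : Matrix (Fin n) (Fin n) ℤ, IsUnit U.det ∧
      {i : Fin n | ¬ RowDom 1 (gram A U) i}.ncard ≤ k) ∧ g = gam A}

end Pool.Agent.H6.DD
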