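import Pool.Agent.H6.DD.Base
import Pool.Agent.H6.DD.Defs

/-!
# The Hermite invariant of a lattice with a diagonally dominant sublattice (helper6)
-/

set_option autoImplicit false

open Matrix Finset

namespace Pool.Agent.H6.DD

/-- squared length of `A w` -/
noncomputable def sq {n : ℕ} (A : Matrix (Fin n) (Fin n) ℝ) (w : Fin n → ℤ) : ℝ :=
  ∑ i, (A.mulVec (fun j => (w j : ℝ))) i ^ 2

/-- least squared length -/
noncomputable def lam {n : ℕ} (A : Matrix (Fin n) (Fin n) ℝ) : ℝ :=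
  ⨅ w : {w : Fin n → ℤ // w ≠ 0}, sq A w.1

lemma sq_nonneg' {n : ℕ} (A : Matrix (Fin n) (Fin n) ℝ) (w : Fin n → ℤ) : 0 ≤ sq A w :=
  Finset.sum_nonneg fun _ _ => sq_nonneg _

lemma gam_eq {n : ℕ} (A : Matrix (Fin n) (Fin n) ℝ) :
    gam A = lam A / |A.det| ^ ((2 : ℝ) / (n : ℝ)) := rfl

lemma lam_nonneg {n : ℕ} (A : Matrix (Fin n) (Fin n) ℝ) : 0 ≤ lam A :=
  Real.iInf_nonneg fun w => sq_nonneg' A w.1

lemma lam_le {n : ℕ} (A : Matrix (Fin n) (Fin n) ℝ) (w : Fin n → ℤ) (hw : w ≠ 0) :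
    lam A ≤ sq A w :=
  ciInf_le (f := fun w : {w : Fin n → ℤ // w ≠ 0} => sq A w.1)
    ⟨0, by rintro _ ⟨w, rfl⟩; exact sq_nonneg' A w.1⟩ ⟨w, hw⟩

lemma sq_mul {n : ℕ} (A : Matrix (Fin n) (Fin n) ℝ) (U : Matrix (Fin n) (Fin n) ℤ)
    (x : Fin n → ℤ) : qf (gram A U) x = sq A (U.mulVec x) := by
  set B : Matrix (Fin n) (Fin n) ℝ := A * U.map (fun z : ℤ => (z : ℝ)) with hB
  have h1 : A.mulVec (fun j => ((U.mulVec x) j : ℝ)) = B.mulVec (fun j => (x j : ℝ)) := by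
    rw [hB, ← Matrix.mulVec_mulVec]
    congr 1
    funext j
    simp [Matrix.mulVec, dotProduct]
  have h2 : qf (gram A U) x
      = (fun j => (x j : ℝ)) ⬝ᵥ (gram A U).mulVec (fun j => (x j : ℝ)) := by
    unfold qf
    simp only [dotProduct, Matrix.mulVec, Finset.mul_sum]
    exact Finset.sum_congr rfl fun i _ => Finset.sum_congr rfl fun j _ => by ring
  have h3 : gram A U = Bᵀ * B := rfl
  rw [h2, h3, ← Matrix.mulVec_mulVec, Matrix.dotProduct_mulVec, Matrix.vecMul_transpose]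
  unfold sq
  rw [h1]
  simp only [dotProduct]
  exact Finset.sum_congr rfl fun i _ => by ring

lemma gram_det {n : ℕ} (A : Matrix (Fin n) (Fin n) ℝ) (U : Matrix (Fin n) (Fin n) ℤ) :
    (gram A U).det = A.det ^ 2 * (U.det : ℝ) ^ 2 := by
  unfold gram
  rw [Matrix.det_mul, Matrix.det_transpose, Matrix.det_mul]
  have : (U.map (fun z : ℤ => (z : ℝ))).det = (U.det : ℝ) := by
    have := (Int.castRingHom ℝ).map_det U
    simpa using this.symm
  rw [this]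
  ring

lemma gram_symm {n : ℕ} (A : Matrix (Fin n) (Fin n) ℝ) (U : Matrix (Fin n) (Fin n) ℤ)
    (i j : Fin n) : gram A U i j = gram A U j i := by
  unfold gram
  rw [Matrix.mul_apply, Matrix.mul_apply]
  exact Finset.sum_congr rfl fun k _ => by rw [Matrix.transpose_apply, Matrix.transpose_apply]; ring

lemma gram_diag_nonneg {n : ℕ} (A : Matrix (Fin n) (Fin n) ℝ) (U : Matrix (Fin n) (Fin n) ℤ)
    (i : Fin n) : 0 ≤ gram A U i i := by
  unfold gram
  rw [Matrix.mul_apply]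
  exact Finset.sum_nonneg fun k _ => by rw [Matrix.transpose_apply]; exact mul_self_nonneg _

lemma dom_of_rowDom {n : ℕ} (A : Matrix (Fin n) (Fin n) ℝ) (U : Matrix (Fin n) (Fin n) ℤ)
    (h : ∀ i, RowDom 1 (gram A U) i) : Dom (gram A U) := by
  refine ⟨gram_symm A U, fun i => ?_⟩
  have h1 := h i
  unfold RowDom at h1
  rw [← Finset.add_sum_erase _ _ (Finset.mem_univ i), abs_of_nonneg (gram_diag_nonneg A U i)]
  linarith

lemma atLeast_gram {n : ℕ} (A : Matrix (Fin n) (Fin n) ℝ) (U : Matrix (Fin n) (Fin n) ℤ)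
    (hU : U.det ≠ 0) : AtLeast (gram A U) (lam A) := by
  intro x hx
  rw [sq_mul]
  apply lam_le
  intro h0
  exact hx (Matrix.eq_zero_of_mulVec_eq_zero hU h0)

/-- passing from the determinant inequality to the Hermite invariant -/
lemma gam_le_of_det {n : ℕ} (hn : 0 < n) (A : Matrix (Fin n) (Fin n) ℝ) (hA : A.det ≠ 0)
    (d c : ℝ) (hd : 0 < d) (hc : 0 < c)
    (h : c * (lam A / 2) ^ n ≤ A.det ^ 2 * d ^ 2) :
    gam A ≤ 2 * c ^ (-(1 : ℝ) / n) * d ^ ((2 : ℝ) / n) := by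
  have hdet : 0 < |A.det| := abs_pos.2 hA
  rw [gam_eq, div_le_iff₀ (Real.rpow_pos_of_pos hdet _)]
  have hl := lam_nonneg A
  have hn' : (n : ℝ) ≠ 0 := by positivity
  have h1 : (lam A / 2) ^ n ≤ c⁻¹ * (|A.det| * d) ^ 2 := by
    rw [mul_pow, sq_abs]
    rw [inv_mul_eq_div, le_div_iff₀ hc]
    linarith
  have h2 : lam A / 2 ≤ (c⁻¹ * (|A.det| * d) ^ 2) ^ ((1 : ℝ) / n) := by
    have h3 : lam A / 2 = ((lam A / 2) ^ n) ^ ((1 : ℝ) / n) := by
      rw [← Real.rpow_natCast, ← Real.rpow_mul (by positivity), mul_one_div_cancel hn',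
        Real.rpow_one]
    rw [h3]
    exact Real.rpow_le_rpow (by positivity) h1 (by positivity)
  have h4 : (c⁻¹ * (|A.det| * d) ^ 2) ^ ((1 : ℝ) / n)
      = c ^ (-(1 : ℝ) / n) * d ^ ((2 : ℝ) / n) * |A.det| ^ ((2 : ℝ) / n) := by
    rw [Real.mul_rpow (by positivity) (by positivity), mul_pow,
      Real.mul_rpow (by positivity) (by positivity)]
    rw [← Real.rpow_natCast |A.det| 2, ← Real.rpow_mul hdet.le, ← Real.rpow_natCast d 2,
      ← Real.rpow_mul hd.le, Real.inv_rpow hc.le, ← Real.rpow_neg hc.le]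
    rw [show ((2 : ℕ) : ℝ) * ((1 : ℝ) / n) = 2 / n by push_cast; ring,
      show -((1 : ℝ) / n) = -(1 : ℝ) / n by ring]
    ring
  rw [h4] at h2
  nlinarith

/-- **Sublattices with a diagonally dominant Gram matrix.** -/
theorem gam_le {n : ℕ} (hn : 3 ≤ n) (A : Matrix (Fin n) (Fin n) ℝ) (hA : A.det ≠ 0)
    (U : Matrix (Fin n) (Fin n) ℤ) (hU : U.det ≠ 0) (h : ∀ i, RowDom 1 (gram A U) i) :
    gam A ≤ 2 ^ (1 - (2 : ℝ) / n) * |(U.det : ℝ)| ^ ((2 : ℝ) / n) := by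
  obtain ⟨m, rfl⟩ : ∃ m, n = m + 3 := ⟨n - 3, by omega⟩
  have h1 := det_ge_of_dom (lam A) (lam_nonneg A) m (gram A U) (dom_of_rowDom A U h)
    (atLeast_gram A U hU)
  rw [gram_det] at h1
  have hU' : (0 : ℝ) < |(U.det : ℝ)| := abs_pos.2 (by exact_mod_cast hU)
  have h2 := gam_le_of_det (by omega) A hA |(U.det : ℝ)| 4 hU' (by norm_num)
    (by rw [sq_abs]; exact h1)
  refine h2.trans (le_of_eq ?_)
  congr 1
  have h4 : (4 : ℝ) = 2 ^ (2 : ℝ) := by norm_num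
  rw [h4, ← Real.rpow_mul (by norm_num)]
  nth_rewrite 1 [← Real.rpow_one (2 : ℝ)]
  rw [← Real.rpow_add (by norm_num)]
  congr 1
  ring

end Pool.Agent.H6.DD
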