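import Mathlib

/-!
# Determinants of diagonally dominant quadratic forms (helper6)

`cut M j a` is the restriction of the quadratic form `M` in `n + 1` variables to the hyperplane
`x_j = ∑ a_p x_p`.
-/

set_option autoImplicit false

open Matrix Finset

namespace Pool.Agent.H6.DD

/-- The value of the quadratic form of the matrix `M` at the integral vector `x`. -/
def qf {n : ℕ} (M : Matrix (Fin n) (Fin n) ℝ) (x : Fin n → ℤ) : ℝ :=
  ∑ i, ∑ j, (x i : ℝ) * M i j * (x j : ℝ)

/-- All values of the form at nonzero integral vectors are at least `lam`. -/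
def AtLeast {n : ℕ} (M : Matrix (Fin n) (Fin n) ℝ) (lam : ℝ) : Prop :=
  ∀ x : Fin n → ℤ, x ≠ 0 → lam ≤ qf M x

/-- `M` is symmetric and diagonally dominant. -/
def Dom {n : ℕ} (M : Matrix (Fin n) (Fin n) ℝ) : Prop :=
  (∀ i j, M i j = M j i) ∧ ∀ i, ∑ j, |M i j| ≤ 2 * M i i

/-- extension of an integral vector to the hyperplane -/
def ext {n : ℕ} (j : Fin (n + 1)) (a x : Fin n → ℤ) : Fin (n + 1) → ℤ :=
  j.insertNth (∑ p, a p * x p) x

/-- The restriction of the form `M` to the hyperplane `x_j = ∑ a_p x_p`. -/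
def cut {n : ℕ} (M : Matrix (Fin (n + 1)) (Fin (n + 1)) ℝ) (j : Fin (n + 1)) (a : Fin n → ℤ) :
    Matrix (Fin n) (Fin n) ℝ :=
  fun p q => M (j.succAbove p) (j.succAbove q) + a p * M j (j.succAbove q)
    + M (j.succAbove p) j * a q + a p * M j j * a q

lemma qf_cut {n : ℕ} (M : Matrix (Fin (n + 1)) (Fin (n + 1)) ℝ) (j : Fin (n + 1))
    (a x : Fin n → ℤ) : qf (cut M j a) x = qf M (ext j a x) := by
  unfold qf ext
  rw [Fin.sum_univ_succAbove _ j]
  simp_rw [Fin.sum_univ_succAbove _ j]
  simp only [Fin.insertNth_apply_same, Fin.insertNth_apply_succAbove]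
  unfold cut
  push_cast
  set S : ℝ := ∑ p, (a p : ℝ) * x p with hS
  have e1 : ∑ q, S * M j (j.succAbove q) * x q = ∑ p, ∑ q, (x p : ℝ) * (a p * M j (j.succAbove q)) * x q := by
    rw [Finset.sum_comm]
    refine Finset.sum_congr rfl fun q _ => ?_
    rw [hS, Finset.sum_mul, Finset.sum_mul]
    exact Finset.sum_congr rfl fun p _ => by ring
  have e2 : S * M j j * S = ∑ p, ∑ q, (x p : ℝ) * (a p * M j j * a q) * x q := by
    rw [hS, Finset.sum_mul, Finset.sum_mul]
    refine Finset.sum_congr rfl fun p _ => ?_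
    rw [Finset.mul_sum]
    exact Finset.sum_congr rfl fun q _ => by ring
  have e3 : ∑ p, (x p : ℝ) * M (j.succAbove p) j * S
      = ∑ p, ∑ q, (x p : ℝ) * (M (j.succAbove p) j * a q) * x q := by
    refine Finset.sum_congr rfl fun p _ => ?_
    rw [hS, Finset.mul_sum]
    exact Finset.sum_congr rfl fun q _ => by ring
  rw [Finset.sum_add_distrib, e1, e2, e3, ← Finset.sum_add_distrib, ← Finset.sum_add_distrib,
    ← Finset.sum_add_distrib]
  refine Finset.sum_congr rfl fun p _ => ?_
  rw [← Finset.sum_add_distrib, ← Finset.sum_add_distrib, ← Finset.sum_add_distrib]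
  exact Finset.sum_congr rfl fun q _ => by ring

lemma AtLeast.cut {n : ℕ} {M : Matrix (Fin (n + 1)) (Fin (n + 1)) ℝ} {lam : ℝ}
    (h : AtLeast M lam) (j : Fin (n + 1)) (a : Fin n → ℤ) : AtLeast (cut M j a) lam := by
  intro x hx
  rw [qf_cut]
  apply h
  intro h0
  apply hx
  funext p
  have := congrFun h0 (j.succAbove p)
  simpa [ext] using this

/-- the vector of the linear form `x_j - ∑ a_p x_p` -/
def vec {n : ℕ} (j : Fin (n + 1)) (a : Fin n → ℤ) : Fin (n + 1) → ℝ :=
  j.insertNth 1 (fun p => -(a p : ℝ))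

theorem det_cut {n : ℕ} (M : Matrix (Fin (n + 1)) (Fin (n + 1)) ℝ) (j : Fin (n + 1))
    (a : Fin n → ℤ) :
    (cut M j a).det = ∑ l, ∑ m, vec j a l * M.adjugate l m * vec j a m := by
  classical
  -- the shear
  set b : Fin (n + 1) → ℝ := j.insertNth 0 (fun p => (a p : ℝ)) with hb
  have hbj : b j = 0 := by simp [hb]
  have hbs : ∀ p, b (j.succAbove p) = a p := by intro p; simp [hb]
  set U : Matrix (Fin (n + 1)) (Fin (n + 1)) ℝ := fun i k => (if i = k then 1 else 0)
    + (if i = j then b k else 0) with hU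
  set V : Matrix (Fin (n + 1)) (Fin (n + 1)) ℝ := fun i k => (if i = k then 1 else 0)
    - (if i = j then b k else 0) with hV
  have hUV : U * V = 1 := by
    ext i k
    rw [Matrix.mul_apply]
    simp only [hU, hV, add_mul, mul_sub, Finset.sum_add_distrib, Finset.sum_sub_distrib]
    simp only [ite_mul, one_mul, zero_mul, mul_ite, mul_one, mul_zero, Finset.sum_ite_eq,
      Finset.mem_univ, if_true, Matrix.one_apply]
    by_cases hij : i = j
    · subst hij
      simp [hbj]
    · simp [hij]
  have hVU : V * U = 1 := mul_eq_one_comm.1 hUV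
  have hdet : U.det = 1 := by
    have h1 : U = 1 + Matrix.replicateCol Unit (Pi.single j 1 : Fin (n + 1) → ℝ)
        * Matrix.replicateRow Unit b := by
      ext i k
      rw [Matrix.add_apply, Matrix.mul_apply]
      simp only [hU, Matrix.one_apply, Matrix.replicateCol_apply, Matrix.replicateRow_apply,
        Pi.single_apply]
      simp
    rw [h1, Matrix.det_one_add_replicateCol_mul_replicateRow]
    simp [hbj]
  have hadjU : U.adjugate = V := by
    have h1 : U * U.adjugate = 1 := by rw [Matrix.mul_adjugate, hdet, one_smul]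
    calc U.adjugate = (V * U) * U.adjugate := by rw [hVU, one_mul]
      _ = V * (U * U.adjugate) := by rw [Matrix.mul_assoc]
      _ = V := by rw [h1, Matrix.mul_one]
  have hV_j : ∀ l, V j l = vec j a l := by
    intro l
    simp only [hV, vec, if_true]
    refine Fin.succAboveCases j ?_ (fun p => ?_) l
    · simp [hbj]
    · simp [hbs, (Fin.succAbove_ne j p).symm]
  -- the entry
  have key : (Uᵀ * M * U).adjugate j j = ∑ l, ∑ m, vec j a l * M.adjugate l m * vec j a m := by
    rw [Matrix.adjugate_mul_distrib, Matrix.adjugate_mul_distrib, ← Matrix.adjugate_transpose, hadjU]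
    rw [← Matrix.mul_assoc, Matrix.mul_apply]
    simp only [Matrix.mul_apply, Matrix.transpose_apply, hV_j, Finset.sum_mul]
    rw [Finset.sum_comm]
  rw [← key, Matrix.adjugate_fin_succ_eq_det_submatrix]
  rw [show ((-1 : ℝ)) ^ ((j : ℕ) + (j : ℕ)) = 1 by rw [← two_mul, pow_mul]; norm_num, one_mul]
  congr 1
  ext p q
  simp only [cut, Matrix.submatrix_apply, Matrix.mul_apply, Matrix.transpose_apply, hU]
  simp only [add_mul, mul_add, Finset.sum_add_distrib, ite_mul, one_mul, zero_mul, mul_ite,
    mul_one, mul_zero, Finset.sum_ite_eq, Finset.sum_ite_eq', Finset.mem_univ, if_true, hbs]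
  ring

end Pool.Agent.H6.DD
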