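import Pool.Agent.H6.DD.Bound

/-!
# The root lattice `D_n` has a diagonally dominant Gram matrix (helper6)
-/

set_option autoImplicit false

open Matrix Finset

namespace Pool.Agent.H6.DD

/-- lower bidiagonal matrix -/
def Lz (m : ℕ) : Matrix (Fin (m + 1)) (Fin (m + 1)) ℤ := fun i j =>
  (if i = j then 1 else 0) - (if (i : ℕ) = j + 1 then 1 else 0)

/-- The basis `e_j - e_{j+1}` (`j < m`), `e_m + e_0` of `D_{m+1}`, as columns. -/
def Dz (m : ℕ) : Matrix (Fin (m + 1)) (Fin (m + 1)) ℤ := fun i j =>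
  (if i = j then 1 else 0) - (if (i : ℕ) = j + 1 then 1 else 0)
    + (if i = 0 ∧ j = Fin.last m then 1 else 0)

lemma Lz_det (m : ℕ) : (Lz m).det = 1 := by
  rw [Matrix.det_of_isLowerTriangular]
  · simp [Lz]
  · intro i j hij
    have hij' : i < j := hij
    have h1 : i ≠ j := hij'.ne
    have h2 : ¬ ((i : ℕ) = j + 1) := by
      have : (i : ℕ) < j := hij'
      omega
    simp [Lz, h1, h2]

lemma sum_succ_left (m : ℕ) (i : Fin (m + 1)) (f : Fin (m + 1) → ℤ) :
    ∑ k : Fin (m + 1), (if (i : ℕ) = k + 1 then f k else 0)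
      = if h : (i : ℕ) = 0 then 0 else f ⟨i - 1, by omega⟩ := by
  split_ifs with h
  · apply Finset.sum_eq_zero
    intro k _
    rw [if_neg (by omega)]
  · rw [Finset.sum_eq_single (⟨i - 1, by omega⟩ : Fin (m + 1))]
    · rw [if_pos]
      show (i : ℕ) = (i : ℕ) - 1 + 1
      omega
    · intro k _ hk
      rw [if_neg]
      intro h1
      apply hk
      apply Fin.ext
      show (k : ℕ) = i - 1
      omega
    · simp

lemma Lz_row (m : ℕ) (i : Fin (m + 1)) : ∑ k, Lz m i k = if i = 0 then 1 else 0 := by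
  simp only [Lz, Finset.sum_sub_distrib, Finset.sum_ite_eq, Finset.mem_univ, if_true]
  rw [sum_succ_left m i (fun _ => 1)]
  by_cases h : i = 0
  · subst h; simp
  · have : ¬ ((i : ℕ) = 0) := fun h' => h (Fin.ext h')
    simp [h, this]

lemma Dz_eq (m : ℕ) : Dz m = Lz m * (1 + Matrix.replicateCol Unit (1 : Fin (m + 1) → ℤ)
    * Matrix.replicateRow Unit (Pi.single (Fin.last m) 1 : Fin (m + 1) → ℤ)) := by
  ext i j
  rw [Matrix.mul_add, Matrix.mul_one, Matrix.add_apply, ← Matrix.mul_assoc, Matrix.mul_apply]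
  simp only [Matrix.mul_apply, Matrix.replicateCol_apply, Matrix.replicateRow_apply, Pi.one_apply,
    mul_one, Finset.univ_unique, Finset.sum_singleton, Lz_row]
  unfold Dz Lz
  congr 1
  by_cases h1 : i = 0 <;> by_cases h2 : j = Fin.last m <;> simp [h1, h2]

lemma Dz_det (m : ℕ) : (Dz m).det = 2 := by
  rw [Dz_eq, Matrix.det_mul, Lz_det, one_mul, Matrix.det_one_add_replicateCol_mul_replicateRow]
  simp [dotProduct, Pi.single_apply]

lemma Dz_zero (m : ℕ) (x : Fin (m + 1) → ℤ) : (Dz m).mulVec x 0 = x 0 + x (Fin.last m) := by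
  simp only [Matrix.mulVec, dotProduct, Dz, add_mul, sub_mul, Finset.sum_add_distrib,
    Finset.sum_sub_distrib, ite_mul, one_mul, zero_mul, Finset.sum_ite_eq, Finset.mem_univ, if_true]
  rw [sum_succ_left m 0 x]
  simp

lemma Dz_succ (m : ℕ) (x : Fin (m + 1) → ℤ) (i : Fin m) :
    (Dz m).mulVec x i.succ = x i.succ - x i.castSucc := by
  simp only [Matrix.mulVec, dotProduct, Dz, add_mul, sub_mul, Finset.sum_add_distrib,
    Finset.sum_sub_distrib, ite_mul, one_mul, zero_mul, Finset.sum_ite_eq, Finset.mem_univ, if_true]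
  rw [sum_succ_left m i.succ x]
  have h : ¬ ((i.succ : ℕ) = 0) := by simp
  rw [dif_neg h]
  have h2 : (⟨(i.succ : ℕ) - 1, by omega⟩ : Fin (m + 1)) = i.castSucc := by
    apply Fin.ext; simp
  rw [h2]
  simp

lemma Dz_sum (m : ℕ) (x : Fin (m + 1) → ℤ) :
    ∑ i, (Dz m).mulVec x i = 2 * x (Fin.last m) := by
  rw [Fin.sum_univ_succ, Dz_zero]
  simp only [Dz_succ, Finset.sum_sub_distrib]
  have h1 := Fin.sum_univ_succ x
  have h2 := Fin.sum_univ_castSucc x
  linarith

lemma even_sq_sub (a : ℤ) : Even (a ^ 2 - a) := by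
  have : a ^ 2 - a = (a - 1) * ((a - 1) + 1) := by ring
  rw [this]
  exact Int.even_mul_succ_self (a - 1)

/-- all nonzero vectors of `D_n` have squared length at least two -/
lemma Dz_min (m : ℕ) (x : Fin (m + 1) → ℤ) (hx : x ≠ 0) :
    2 ≤ ∑ i, (Dz m).mulVec x i ^ 2 := by
  have h0 : (Dz m).mulVec x ≠ 0 := by
    intro h
    exact hx (Matrix.eq_zero_of_mulVec_eq_zero (by rw [Dz_det]; norm_num) h)
  have h1 : 0 < ∑ i, (Dz m).mulVec x i ^ 2 := by
    obtain ⟨i, hi⟩ := Function.ne_iff.1 h0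
    have h2 : (Dz m).mulVec x i ^ 2 ≤ ∑ i, (Dz m).mulVec x i ^ 2 :=
      Finset.single_le_sum (f := fun i => (Dz m).mulVec x i ^ 2) (fun i _ => sq_nonneg _)
        (Finset.mem_univ i)
    have h3 : 0 < (Dz m).mulVec x i ^ 2 := by
      have : (Dz m).mulVec x i ≠ 0 := hi
      positivity
    linarith
  have h2 : Even (∑ i, (Dz m).mulVec x i ^ 2) := by
    have h3 : ∑ i, (Dz m).mulVec x i ^ 2
        = ∑ i, ((Dz m).mulVec x i ^ 2 - (Dz m).mulVec x i) + 2 * x (Fin.last m) := by
      rw [Finset.sum_sub_distrib, Dz_sum]; ring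
    rw [h3]
    exact (Finset.even_sum _ fun i _ => even_sq_sub _).add (even_two_mul _)
  obtain ⟨r, hr⟩ := h2
  omega

/-- the image is the set of integral vectors with even sum -/
lemma Dz_image (m : ℕ) (y : Fin (m + 1) → ℤ) :
    (∃ x, (Dz m).mulVec x = y) ↔ Even (∑ i, y i) := by
  constructor
  · rintro ⟨x, rfl⟩
    rw [Dz_sum]
    exact even_two_mul _
  · rintro ⟨r, hr⟩
    -- x_i = x_0 + y_1 + ... + y_i, with x_0 = y_0 - r
    refine ⟨fun i => ∑ k ∈ univ.filter (fun k : Fin (m + 1) => (k : ℕ) ≤ i), y k - r, ?_⟩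
    funext i
    refine Fin.cases ?_ (fun i => ?_) i
    · rw [Dz_zero]
      have h1 : (univ.filter fun k : Fin (m + 1) => (k : ℕ) ≤ ((0 : Fin (m + 1)) : ℕ)) = {0} := by
        ext k
        simp only [Finset.mem_filter, Finset.mem_univ, true_and, Finset.mem_singleton]
        constructor
        · intro h; apply Fin.ext; simpa using h
        · rintro rfl; simp
      have h2 : (univ.filter fun k : Fin (m + 1) => (k : ℕ) ≤ ((Fin.last m : Fin (m + 1)) : ℕ))
          = univ := by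
        ext k
        simp only [Finset.mem_filter, Finset.mem_univ, true_and, iff_true, Fin.val_last]
        omega
      rw [h1, h2, Finset.sum_singleton, hr]
      ring
    · rw [Dz_succ]
      have h1 : (univ.filter fun k : Fin (m + 1) => (k : ℕ) ≤ (i.succ : ℕ))
          = insert i.succ (univ.filter fun k : Fin (m + 1) => (k : ℕ) ≤ (i.castSucc : ℕ)) := by
        ext k
        simp only [Finset.mem_filter, Finset.mem_univ, true_and, Finset.mem_insert, Fin.ext_iff,
          Fin.val_succ, Fin.val_castSucc]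
        omega
      rw [h1, Finset.sum_insert (by simp)]
      ring

/-- `D_{m+1}` with real entries -/
def Dr (m : ℕ) : Matrix (Fin (m + 1)) (Fin (m + 1)) ℝ := (Dz m).map (fun z : ℤ => (z : ℝ))

lemma Dr_det (m : ℕ) : (Dr m).det = 2 := by
  have h := (Int.castRingHom ℝ).map_det (Dz m)
  have h2 : (Dr m).det = (((Dz m).det : ℤ) : ℝ) := by
    unfold Dr
    simpa using h.symm
  rw [h2, Dz_det]
  norm_num

lemma Dr_mulVec (m : ℕ) (x : Fin (m + 1) → ℤ) (i : Fin (m + 1)) :
    (Dr m).mulVec (fun j => (x j : ℝ)) i = (((Dz m).mulVec x i : ℤ) : ℝ) := by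
  simp [Dr, Matrix.mulVec, dotProduct]

lemma Dr_sq (m : ℕ) (x : Fin (m + 1) → ℤ) :
    sq (Dr m) x = ((∑ i, (Dz m).mulVec x i ^ 2 : ℤ) : ℝ) := by
  unfold sq
  push_cast
  exact Finset.sum_congr rfl fun i _ => by rw [Dr_mulVec]

/-- indicator sum -/
def ind (m : ℕ) (i j : Fin (m + 1)) : ℤ :=
  (if i = j then 1 else 0) + (if (i : ℕ) = j + 1 then 1 else 0)
    + (if i = 0 ∧ j = Fin.last m then 1 else 0)

lemma Dz_abs_le (m : ℕ) (i j : Fin (m + 1)) : |Dz m i j| ≤ ind m i j := by
  unfold Dz ind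
  split_ifs <;> simp

lemma Dz_sq (m : ℕ) (hm : 1 ≤ m) (i j : Fin (m + 1)) : Dz m i j ^ 2 = ind m i j := by
  unfold Dz ind
  by_cases h1 : i = j
  · subst h1
    have h2 : ¬ (i = 0 ∧ i = Fin.last m) := by
      rintro ⟨h3, h4⟩
      rw [h3] at h4
      have := congrArg Fin.val h4
      simp at this
      omega
    simp [h2]
  · by_cases h3 : (i : ℕ) = j + 1
    · have h4 : ¬ (i = 0 ∧ j = Fin.last m) := by
        rintro ⟨h5, _⟩
        rw [h5] at h3
        simp at h3
      rw [if_neg h1, if_pos h3, if_neg h4]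
      norm_num
    · rw [if_neg h1, if_neg h3]
      by_cases h4 : (i = 0 ∧ j = Fin.last m)
      · rw [if_pos h4]; norm_num
      · rw [if_neg h4]; norm_num

lemma ind_row (m : ℕ) (i : Fin (m + 1)) : ∑ j, ind m i j = 2 := by
  simp only [ind, Finset.sum_add_distrib, Finset.sum_ite_eq, Finset.mem_univ, if_true]
  rw [sum_succ_left m i (fun _ => 1)]
  by_cases h : i = 0
  · subst h; simp
  · have : ¬ ((i : ℕ) = 0) := fun h' => h (Fin.ext h')
    simp [h, this]

lemma ind_col (m : ℕ) (j : Fin (m + 1)) : ∑ i, ind m i j = 2 := by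
  simp only [ind, Finset.sum_add_distrib, Finset.sum_ite_eq', Finset.mem_univ, if_true]
  by_cases h : j = Fin.last m
  · subst h
    have h1 : ∑ i : Fin (m + 1), (if (i : ℕ) = (Fin.last m : Fin (m + 1)) + 1 then (1 : ℤ) else 0)
        = 0 := by
      apply Finset.sum_eq_zero
      intro i _
      rw [if_neg]
      simp
      omega
    rw [h1]
    simp
  · have hj : (j : ℕ) < m := by
      have h2 : (j : ℕ) ≠ m := fun h' => h (Fin.ext (by simpa using h'))
      omega
    have h1 : ∑ i : Fin (m + 1), (if (i : ℕ) = (j : ℕ) + 1 then (1 : ℤ) else 0) = 1 := by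
      rw [Finset.sum_eq_single (⟨j + 1, by omega⟩ : Fin (m + 1))]
      · simp
      · intro i _ hi
        rw [if_neg]
        intro h3
        exact hi (Fin.ext h3)
      · simp
    rw [h1]
    simp [h]

lemma one_map (m : ℕ) : (1 : Matrix (Fin m) (Fin m) ℤ).map (fun z : ℤ => (z : ℝ)) = 1 := by
  ext i j
  simp [Matrix.one_apply]

lemma gram_Dr (m : ℕ) (j k : Fin (m + 1)) :
    gram (Dr m) 1 j k = ((∑ i, Dz m i j * Dz m i k : ℤ) : ℝ) := by
  unfold gram
  rw [one_map, Matrix.mul_one, Matrix.mul_apply]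
  push_cast
  rfl

lemma Dr_rowDom (m : ℕ) (hm : 1 ≤ m) (j : Fin (m + 1)) : RowDom 1 (gram (Dr m) 1) j := by
  have h1 : ∑ i, Dz m i j * Dz m i j = 2 := by
    rw [← ind_col m j]
    exact Finset.sum_congr rfl fun i _ => by rw [← Dz_sq m hm]; ring
  have h2 : ∑ k, |∑ i, Dz m i j * Dz m i k| ≤ 4 := by
    calc ∑ k, |∑ i, Dz m i j * Dz m i k| ≤ ∑ k, ∑ i, ind m i j * ind m i k := by
          refine Finset.sum_le_sum fun k _ => ?_
          refine (Finset.abs_sum_le_sum_abs _ _).trans ?_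
          refine Finset.sum_le_sum fun i _ => ?_
          rw [abs_mul]
          exact mul_le_mul (Dz_abs_le m i j) (Dz_abs_le m i k) (abs_nonneg _)
            ((abs_nonneg _).trans (Dz_abs_le m i j))
      _ = ∑ i, ind m i j * ∑ k, ind m i k := by
          rw [Finset.sum_comm]
          exact Finset.sum_congr rfl fun i _ => by rw [Finset.mul_sum]
      _ = 4 := by
          simp only [ind_row]
          rw [← Finset.sum_mul, ind_col]
          norm_num
  unfold RowDom
  simp only [gram_Dr]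
  rw [h1]
  rw [← Finset.add_sum_erase _ _ (Finset.mem_univ j), h1] at h2
  have h3 : ∑ k ∈ univ.erase j, |∑ i, Dz m i j * Dz m i k| ≤ 2 := by
    have h4 : |(2 : ℤ)| = 2 := by norm_num
    rw [h4] at h2
    linarith
  have h5 : ((∑ k ∈ univ.erase j, |∑ i, Dz m i j * Dz m i k| : ℤ) : ℝ) ≤ ((2 : ℤ) : ℝ) := by
    exact_mod_cast h3
  push_cast at h5 ⊢
  linarith

lemma Dr_lam (m : ℕ) (hm : 1 ≤ m) : lam (Dr m) = 2 := by
  apply le_antisymm
  · have h1 := lam_le (Dr m) (Pi.single 0 1) (by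
      intro h
      have := congrFun h 0
      simp at this)
    refine h1.trans (le_of_eq ?_)
    rw [Dr_sq]
    have h2 : ∑ i, (Dz m).mulVec (Pi.single 0 1) i ^ 2 = 2 := by
      simp only [Matrix.mulVec_single_one, Matrix.col_apply, Dz_sq m hm, ind_col]
    rw [h2]
    norm_num
  · have : Nonempty {w : Fin (m + 1) → ℤ // w ≠ 0} := ⟨⟨Pi.single 0 1, by
      intro h
      have := congrFun h 0
      simp at this⟩⟩
    refine le_ciInf fun w => ?_
    rw [Dr_sq]
    exact_mod_cast Dz_min m w.1 w.2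

lemma Dr_gam (m : ℕ) (hm : 1 ≤ m) : gam (Dr m) = 2 ^ (1 - (2 : ℝ) / (m + 1 : ℕ)) := by
  rw [gam_eq, Dr_lam m hm, Dr_det, abs_of_pos (by norm_num : (0 : ℝ) < 2),
    Real.rpow_sub (by norm_num), Real.rpow_one]

end Pool.Agent.H6.DD
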