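import Pool.Agent.H6.DD.Bound

/-!
# Lattices whose dual lattice has a diagonally dominant Gram matrix (helper6)
-/

set_option autoImplicit false

open Matrix Finset

namespace Pool.Agent.H6.DD

lemma qf_pair {n : ℕ} (P : Matrix (Fin n) (Fin n) ℝ) (hP : ∀ i j, P i j = P j i) (i k : Fin n)
    (s : ℤ) : qf P (Pi.single i 1 + Pi.single k s) = P i i + s * s * P k k + 2 * s * P i k := by
  have h1 : ∀ a : Fin n, (((Pi.single i 1 + Pi.single k s : Fin n → ℤ) a : ℤ) : ℝ)
      = (if a = i then 1 else 0) + (if a = k then (s : ℝ) else 0) := by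
    intro a
    simp only [Pi.add_apply, Pi.single_apply]
    push_cast
    rfl
  unfold qf
  simp only [h1, add_mul, mul_add, Finset.sum_add_distrib, ite_mul, mul_ite, one_mul, mul_one,
    zero_mul, mul_zero, Finset.sum_ite_eq', Finset.mem_univ, if_true]
  rw [hP k i]
  ring

/-- AM-GM for the eigenvalues of a Gram matrix -/
lemma det_le_trace {n : ℕ} (hn : 0 < n) (B : Matrix (Fin n) (Fin n) ℝ) :
    (Bᵀ * B).det ≤ ((Bᵀ * B).trace / n) ^ n := by
  have hpsd : (Bᵀ * B).PosSemidef := by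
    have := Matrix.posSemidef_conjTranspose_mul_self B
    rwa [Matrix.conjTranspose_eq_transpose_of_trivial] at this
  have hH := hpsd.isHermitian
  have h1 : (Bᵀ * B).det = ∏ i, hH.eigenvalues i := by
    simpa using hH.det_eq_prod_eigenvalues
  have h2 : (Bᵀ * B).trace = ∑ i, hH.eigenvalues i := by
    simpa using hH.trace_eq_sum_eigenvalues
  have h0 : ∀ i, 0 ≤ hH.eigenvalues i := hpsd.eigenvalues_nonneg
  have hn' : (n : ℝ) ≠ 0 := by positivity
  have h3 := Real.geom_mean_le_arith_mean_weighted univ (fun _ : Fin n => (1 : ℝ) / n)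
    hH.eigenvalues (fun _ _ => by positivity) (by simp [hn']) (fun i _ => h0 i)
  have h4 : ∏ i, hH.eigenvalues i = (∏ i, hH.eigenvalues i ^ ((1 : ℝ) / n)) ^ n := by
    rw [← Finset.prod_pow]
    refine Finset.prod_congr rfl fun i _ => ?_
    rw [← Real.rpow_natCast, ← Real.rpow_mul (h0 i), one_div_mul_cancel hn', Real.rpow_one]
  rw [h1, h4, h2]
  refine pow_le_pow_left₀ (Finset.prod_nonneg fun i _ => Real.rpow_nonneg (h0 i) _) ?_ n
  refine h3.trans (le_of_eq ?_)
  rw [Finset.sum_div]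
  exact Finset.sum_congr rfl fun i _ => by ring

/-- **The dual lattice has a diagonally dominant Gram matrix.** -/
theorem gam_le_dual {n : ℕ} (hn : 0 < n) (A : Matrix (Fin n) (Fin n) ℝ) (hA : A.det ≠ 0)
    (U : Matrix (Fin n) (Fin n) ℤ) (hU : IsUnit U.det) (h : ∀ i, RowDom 1 (gram (Aᵀ)⁻¹ U) i) :
    gam A ≤ 2 := by
  have hdom := dom_of_rowDom _ U h
  set M := gram (Aᵀ)⁻¹ U with hM
  set V : Matrix (Fin n) (Fin n) ℤ := (U⁻¹)ᵀ with hV
  have hUi : IsUnit U := (Matrix.isUnit_iff_isUnit_det U).2 hU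
  set Ur : Matrix (Fin n) (Fin n) ℝ := U.map (fun z : ℤ => (z : ℝ)) with hUr
  set Vr : Matrix (Fin n) (Fin n) ℝ := V.map (fun z : ℤ => (z : ℝ)) with hVr
  have hUV : Urᵀ * Vr = 1 := by
    have h1 : U⁻¹ * U = 1 := Matrix.nonsing_inv_mul U hU
    have h2 : Uᵀ * V = 1 := by
      rw [hV, ← Matrix.transpose_mul, h1, Matrix.transpose_one]
    have h3 : (Uᵀ * V).map (fun z : ℤ => (z : ℝ)) = (1 : Matrix (Fin n) (Fin n) ℝ) := by
      rw [h2]; ext i j; simp [Matrix.one_apply]
    rw [← h3]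
    ext i j
    simp [Matrix.mul_apply, hUr, hVr]
  have hA' : IsUnit A.det := isUnit_iff_ne_zero.2 hA
  have hAT : IsUnit (Aᵀ).det := by rw [Matrix.det_transpose]; exact hA'
  set P := gram A V with hP
  -- M * P = 1
  have hMP : P * M = 1 := by
    have h1 : P = (A * Vr)ᵀ * (A * Vr) := rfl
    have h2 : M = ((Aᵀ)⁻¹ * Ur)ᵀ * ((Aᵀ)⁻¹ * Ur) := rfl
    have h3 : (A * Vr) * ((Aᵀ)⁻¹ * Ur)ᵀ = 1 := by
      rw [Matrix.transpose_mul, Matrix.transpose_nonsing_inv, Matrix.transpose_transpose]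
      have h4 : Vr * Urᵀ = 1 := mul_eq_one_comm.1 hUV
      calc A * Vr * (Urᵀ * A⁻¹) = A * (Vr * Urᵀ) * A⁻¹ := by simp only [Matrix.mul_assoc]
        _ = 1 := by rw [h4, Matrix.mul_one, Matrix.mul_nonsing_inv A hA']
    have h5 : (A * Vr)ᵀ * ((Aᵀ)⁻¹ * Ur) = 1 := by
      rw [Matrix.transpose_mul]
      calc Vrᵀ * Aᵀ * ((Aᵀ)⁻¹ * Ur) = Vrᵀ * (Aᵀ * (Aᵀ)⁻¹) * Ur := by simp only [Matrix.mul_assoc]
        _ = Vrᵀ * Ur := by rw [Matrix.mul_nonsing_inv _ hAT, Matrix.mul_one]
        _ = (Urᵀ * Vr)ᵀ := by rw [Matrix.transpose_mul, Matrix.transpose_transpose]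
        _ = 1 := by rw [hUV, Matrix.transpose_one]
    rw [h1, h2]
    calc (A * Vr)ᵀ * (A * Vr) * (((Aᵀ)⁻¹ * Ur)ᵀ * ((Aᵀ)⁻¹ * Ur))
        = (A * Vr)ᵀ * ((A * Vr) * ((Aᵀ)⁻¹ * Ur)ᵀ) * ((Aᵀ)⁻¹ * Ur) := by
          simp only [Matrix.mul_assoc]
      _ = 1 := by rw [h3, Matrix.mul_one, h5]
  have hVdet : V.det ≠ 0 := by
    intro h0
    have h1 : (Urᵀ * Vr).det = 1 := by rw [hUV, Matrix.det_one]
    have h2 : Vr.det = (V.det : ℝ) := by
      have := (Int.castRingHom ℝ).map_det V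
      simpa using this.symm
    rw [Matrix.det_mul, h2, h0] at h1
    simp at h1
  have hAt : AtLeast P (lam A) := atLeast_gram A V hVdet
  have hPs : ∀ i j, P i j = P j i := gram_symm A V
  have hpair := pairing M P hdom hPs (lam A) (fun i => diag_ge hAt i) (fun i k hik => by
    rcases le_total 0 (M i k) with h0 | h0
    · refine ⟨1, by norm_num, by rw [abs_of_nonneg h0]; ring, ?_⟩
      have h1 := hAt (Pi.single i 1 + Pi.single k 1) (by
        intro h2
        have := congrFun h2 i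
        simp [Pi.single_apply, hik] at this)
      rw [qf_pair P hPs] at h1
      push_cast at h1
      linarith
    · refine ⟨-1, by norm_num, by rw [abs_of_nonpos h0]; ring, ?_⟩
      have h1 := hAt (Pi.single i 1 + Pi.single k (-1)) (by
        intro h2
        have := congrFun h2 i
        simp [Pi.single_apply, hik] at this)
      rw [qf_pair P hPs] at h1
      push_cast at h1
      linarith)
  have hn1 : ∑ i, ∑ k, M i k * P i k = n := by
    have h1 : ∀ k, ∑ i, M i k * P i k = 1 := by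
      intro k
      have h2 := congrFun (congrFun hMP k) k
      rw [Matrix.mul_apply, Matrix.one_apply_eq] at h2
      rw [← h2]
      exact Finset.sum_congr rfl fun i _ => by rw [hPs i k]; ring
    rw [Finset.sum_comm]
    simp [h1]
  rw [hn1] at hpair
  have hl := lam_nonneg A
  have htr : lam A * M.trace ≤ 2 * n := by
    refine le_trans (mul_le_mul_of_nonneg_left ?_ hl) hpair
    unfold Matrix.trace
    refine Finset.sum_le_sum fun i _ => ?_
    have := hdom.2 i
    simp only [Matrix.diag_apply]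
    linarith
  have hdet := det_le_trace hn ((Aᵀ)⁻¹ * Ur)
  have hM' : ((Aᵀ)⁻¹ * Ur)ᵀ * ((Aᵀ)⁻¹ * Ur) = M := rfl
  rw [hM'] at hdet
  have hdetM : M.det * A.det ^ 2 = 1 := by
    have h1 : (P * M).det = 1 := by rw [hMP, Matrix.det_one]
    have h2 : P.det = A.det ^ 2 * (V.det : ℝ) ^ 2 := gram_det A V
    have h3 : (V.det : ℝ) ^ 2 = 1 := by
      have h4 : IsUnit V.det := by
        rw [hV, Matrix.det_transpose]
        exact (Matrix.isUnit_nonsing_inv_det U hU)
      rcases Int.isUnit_iff.1 h4 with h5 | h5 <;> rw [h5] <;> norm_num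
    rw [Matrix.det_mul, h2, h3] at h1
    linarith
  have hn' : (0 : ℝ) < n := by positivity
  have htr0 : 0 ≤ M.trace := Finset.sum_nonneg fun i _ => gram_diag_nonneg _ U i
  have h5 : (lam A / 2) ^ n * M.det ≤ 1 := by
    calc (lam A / 2) ^ n * M.det ≤ (lam A / 2) ^ n * (M.trace / n) ^ n :=
          mul_le_mul_of_nonneg_left hdet (by positivity)
      _ = (lam A * M.trace / (2 * n)) ^ n := by rw [← mul_pow]; congr 1; field_simp
      _ ≤ 1 ^ n := by
          refine pow_le_pow_left₀ (by positivity) ?_ n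
          rw [div_le_one (by positivity)]
          exact htr
      _ = 1 := one_pow n
  have h6 : 1 * (lam A / 2) ^ n ≤ A.det ^ 2 * 1 ^ 2 := by
    have h7 := mul_le_mul_of_nonneg_right h5 (sq_nonneg A.det)
    have h8 : (lam A / 2) ^ n * M.det * A.det ^ 2 = (lam A / 2) ^ n := by
      rw [mul_assoc, hdetM, mul_one]
    rw [h8] at h7
    linarith
  have h9 := gam_le_of_det hn A hA 1 1 one_pos one_pos h6
  simpa using h9

end Pool.Agent.H6.DD
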