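import Pool.Agent.H6.DD.An

/-!
# Lattices whose dual lattice is diagonally dominant with bounded integer weights (helper6)
-/

set_option autoImplicit false

open Matrix Finset

namespace Pool.Agent.H6.DD

lemma qf_pair2 {n : ℕ} (P : Matrix (Fin n) (Fin n) ℝ) (hP : ∀ i j, P i j = P j i) (i k : Fin n)
    (s t : ℤ) : qf P (Pi.single i t + Pi.single k s)
      = t * t * P i i + s * s * P k k + 2 * s * t * P i k := by
  have h1 : ∀ a : Fin n, (((Pi.single i t + Pi.single k s : Fin n → ℤ) a : ℤ) : ℝ)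
      = (if a = i then (t : ℝ) else 0) + (if a = k then (s : ℝ) else 0) := by
    intro a
    simp only [Pi.add_apply, Pi.single_apply]
    push_cast
    rfl
  unfold qf
  simp only [h1, add_mul, mul_add, Finset.sum_add_distrib, ite_mul, mul_ite,
    zero_mul, mul_zero, Finset.sum_ite_eq', Finset.mem_univ, if_true]
  rw [hP k i]
  ring

/-- **The weighted pairing inequality.** -/
theorem wpairing {n : ℕ} (M P : Matrix (Fin n) (Fin n) ℝ) (hM : ∀ i j, M i j = M j i)
    (hP : ∀ i j, P i j = P j i) (d : Fin n → ℝ) (D lam : ℝ) (hd : ∀ i, 1 ≤ d i)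
    (hdD : ∀ i, d i ≤ D) (hlam : 0 ≤ lam)
    (hdom : ∀ i, ∑ j ∈ univ.erase i, |M i j| * d j ≤ M i i * d i)
    (hdiag : ∀ i, lam ≤ P i i)
    (hpair : ∀ i k, i ≠ k → ∀ s : ℝ, (s = 1 ∨ s = -1) →
      lam ≤ d k * d k * P i i + d i * d i * P k k + 2 * s * (d i * d k) * P i k) :
    lam * ∑ i, M i i ≤ 2 * D ^ 2 * ∑ i, ∑ k, M i k * P i k := by
  have hd0 : ∀ i, 0 < d i := fun i => lt_of_lt_of_le one_pos (hd i)
  -- the off-diagonal terms
  have hoff : ∀ i k, i ≠ k →
      |M i k| * (lam / (2 * (d i * d k)) - d k / (2 * d i) * P i i - d i / (2 * d k) * P k k)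
        ≤ M i k * P i k := by
    intro i k hik
    have h0 := abs_nonneg (M i k)
    have hdi := hd0 i
    have hdk := hd0 k
    have key : ∀ s : ℝ, (s = 1 ∨ s = -1) → s * M i k = |M i k| →
        |M i k| * (lam / (2 * (d i * d k)) - d k / (2 * d i) * P i i - d i / (2 * d k) * P k k)
          ≤ M i k * P i k := by
      intro s hs hsM
      have h1 := hpair i k hik s hs
      have h2 : M i k = s * |M i k| := by
        rw [← hsM, ← mul_assoc]
        rcases hs with h | h <;> rw [h] <;> ring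
      have h3 : lam / (2 * (d i * d k)) - d k / (2 * d i) * P i i - d i / (2 * d k) * P k k
          ≤ s * P i k := by
        have h4 : lam / (2 * (d i * d k)) - d k / (2 * d i) * P i i - d i / (2 * d k) * P k k
            - s * P i k = (lam - (d k * d k * P i i + d i * d i * P k k
              + 2 * s * (d i * d k) * P i k)) / (2 * (d i * d k)) := by
          field_simp
          ring
        have h5 : (lam - (d k * d k * P i i + d i * d i * P k k
              + 2 * s * (d i * d k) * P i k)) / (2 * (d i * d k)) ≤ 0 :=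
          div_nonpos_of_nonpos_of_nonneg (by linarith) (by positivity)
        linarith
      calc |M i k| * (lam / (2 * (d i * d k)) - d k / (2 * d i) * P i i
            - d i / (2 * d k) * P k k) ≤ |M i k| * (s * P i k) :=
            mul_le_mul_of_nonneg_left h3 h0
        _ = (s * |M i k|) * P i k := by ring
        _ = M i k * P i k := by rw [← h2]
    rcases le_total 0 (M i k) with h | h
    · exact key 1 (Or.inl rfl) (by rw [abs_of_nonneg h, one_mul])
    · exact key (-1) (Or.inr rfl) (by rw [abs_of_nonpos h]; ring)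
  -- summation
  set R : Fin n → ℝ := fun i => ∑ k ∈ univ.erase i, |M i k| * d k with hR
  have hR0 : ∀ i, 0 ≤ R i := fun i => Finset.sum_nonneg fun k _ =>
    mul_nonneg (abs_nonneg _) (hd0 k).le
  have hD1 : ∀ i : Fin n, 1 ≤ D := fun i => (hd i).trans (hdD i)
  have hsplit : ∑ i, ∑ k, M i k * P i k
      = ∑ i, M i i * P i i + ∑ i, ∑ k ∈ univ.erase i, M i k * P i k := by
    rw [← Finset.sum_add_distrib]
    exact Finset.sum_congr rfl fun i _ => (Finset.add_sum_erase _ _ (Finset.mem_univ i)).symm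
  have hswap : ∑ i, ∑ k ∈ univ.erase i, |M i k| * (d i / (2 * d k) * P k k)
      = ∑ i, ∑ k ∈ univ.erase i, |M i k| * (d k / (2 * d i) * P i i) := by
    have h1 : ∀ f : Fin n → Fin n → ℝ, ∑ i, ∑ k ∈ univ.erase i, f i k
        = ∑ i, ∑ k, if i = k then 0 else f i k := by
      intro f
      refine Finset.sum_congr rfl fun i _ => ?_
      rw [← Finset.add_sum_erase _ _ (Finset.mem_univ i), if_pos rfl, zero_add]
      exact Finset.sum_congr rfl fun k hk => by rw [if_neg (Finset.ne_of_mem_erase hk).symm]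
    rw [h1, h1, Finset.sum_comm]
    refine Finset.sum_congr rfl fun i _ => Finset.sum_congr rfl fun k _ => ?_
    rcases eq_or_ne k i with h | h
    · rw [if_pos h, if_pos h.symm]
    · rw [if_neg h, if_neg h.symm, hM k i]
  have hlow : ∑ i, ∑ k ∈ univ.erase i, M i k * P i k
      ≥ ∑ i, ∑ k ∈ univ.erase i, |M i k| * (lam / (2 * (d i * d k)))
        - ∑ i, P i i * (R i / d i) := by
    have h1 : ∑ i, ∑ k ∈ univ.erase i, M i k * P i k
        ≥ ∑ i, ∑ k ∈ univ.erase i,
          |M i k| * (lam / (2 * (d i * d k)) - d k / (2 * d i) * P i i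
            - d i / (2 * d k) * P k k) :=
      Finset.sum_le_sum fun i _ => Finset.sum_le_sum fun k hk =>
        hoff i k (Finset.ne_of_mem_erase hk).symm
    refine le_trans (le_of_eq ?_) h1
    simp only [mul_sub, Finset.sum_sub_distrib]
    rw [hswap, sub_sub]
    congr 1
    rw [← Finset.sum_add_distrib]
    refine Finset.sum_congr rfl fun i _ => ?_
    rw [← Finset.sum_add_distrib, hR, Finset.sum_div, Finset.mul_sum]
    refine Finset.sum_congr rfl fun k _ => ?_
    have := (hd0 i).ne'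
    field_simp
    ring
  have hR2 : ∀ i, lam / (2 * D ^ 2) * (R i / d i)
      ≤ ∑ k ∈ univ.erase i, |M i k| * (lam / (2 * (d i * d k))) := by
    intro i
    rw [hR, Finset.sum_div, Finset.mul_sum]
    refine Finset.sum_le_sum fun k _ => ?_
    have h0 := abs_nonneg (M i k)
    have hdi := hd0 i
    have hdk := hd0 k
    have hDp : 0 < D := lt_of_lt_of_le one_pos (hD1 i)
    have h1 : d k ^ 2 ≤ D ^ 2 := pow_le_pow_left₀ hdk.le (hdD k) 2
    have h2 : lam / (2 * D ^ 2) * (|M i k| * d k / d i)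
        = |M i k| * (lam / (2 * (d i * d k))) * (d k ^ 2 / D ^ 2) := by
      field_simp
    rw [h2]
    refine mul_le_of_le_one_right (mul_nonneg h0 (by positivity)) ?_
    rw [div_le_one (by positivity)]
    exact h1
  have hfin : ∀ i, lam * M i i ≤ 2 * D ^ 2 * (M i i * P i i - P i i * (R i / d i)
      + lam / (2 * D ^ 2) * (R i / d i)) := by
    intro i
    have hdi := hd0 i
    have hDp : 0 < D := lt_of_lt_of_le one_pos (hD1 i)
    have h1 : R i / d i ≤ M i i := by
      rw [div_le_iff₀ hdi]; exact hdom i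
    have h2 : 0 ≤ R i / d i := div_nonneg (hR0 i) hdi.le
    set r := R i / d i
    have h3 : 2 * D ^ 2 * (lam / (2 * D ^ 2) * r) = lam * r := by
      field_simp
    have h4 : 2 * D ^ 2 * (M i i * P i i - P i i * r + lam / (2 * D ^ 2) * r)
        = 2 * D ^ 2 * ((M i i - r) * P i i) + lam * r := by
      rw [← h3]; ring
    rw [h4]
    have h5 : lam * (M i i - r) ≤ (M i i - r) * P i i := by
      rw [mul_comm]
      exact mul_le_mul_of_nonneg_left (hdiag i) (by linarith)
    have h6 : (1 : ℝ) ≤ 2 * D ^ 2 := by nlinarith [hD1 i]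
    have h7 : 0 ≤ (M i i - r) * P i i :=
      mul_nonneg (by linarith) (hlam.trans (hdiag i))
    nlinarith
  calc lam * ∑ i, M i i = ∑ i, lam * M i i := Finset.mul_sum _ _ _
    _ ≤ ∑ i, 2 * D ^ 2 * (M i i * P i i - P i i * (R i / d i)
      + lam / (2 * D ^ 2) * (R i / d i)) := Finset.sum_le_sum fun i _ => hfin i
    _ = 2 * D ^ 2 * (∑ i, M i i * P i i - ∑ i, P i i * (R i / d i)
      + ∑ i, lam / (2 * D ^ 2) * (R i / d i)) := by
        rw [← Finset.mul_sum, Finset.sum_add_distrib, Finset.sum_sub_distrib]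
    _ ≤ 2 * D ^ 2 * ∑ i, ∑ k, M i k * P i k := by
        refine mul_le_mul_of_nonneg_left ?_ (by positivity)
        have h1 := Finset.sum_le_sum fun i (_ : i ∈ (univ : Finset (Fin n))) => hR2 i
        rw [hsplit]
        linarith

/-- **The dual lattice is diagonally dominant with integer weights at most `D`.** -/
theorem gam_le_dual_weights {n : ℕ} (hn : 0 < n) (A : Matrix (Fin n) (Fin n) ℝ) (hA : A.det ≠ 0)
    (U : Matrix (Fin n) (Fin n) ℤ) (hU : IsUnit U.det) (d : Fin n → ℕ) (D : ℕ)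
    (hd : ∀ i, 0 < d i) (hdD : ∀ i, d i ≤ D)
    (h : ∀ i, ∑ j ∈ univ.erase i, |gram (Aᵀ)⁻¹ U i j| * d j ≤ gram (Aᵀ)⁻¹ U i i * d i) :
    gam A ≤ 2 * (D : ℝ) ^ 2 := by
  set M := gram (Aᵀ)⁻¹ U with hM
  set V : Matrix (Fin n) (Fin n) ℤ := (U⁻¹)ᵀ with hV
  have hUi : IsUnit U := (Matrix.isUnit_iff_isUnit_det U).2 hU
  set Ur : Matrix (Fin n) (Fin n) ℝ := U.map (fun z : ℤ => (z : ℝ)) with hUr
  set Vr : Matrix (Fin n) (Fin n) ℝ := V.map (fun z : ℤ => (z : ℝ)) with hVr
  have hUV : Urᵀ * Vr = 1 := by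
    have h1 : U⁻¹ * U = 1 := Matrix.nonsing_inv_mul U hU
    have h2 : Uᵀ * V = 1 := by
      rw [hV, ← Matrix.transpose_mul, h1, Matrix.transpose_one]
    have h3 : (Uᵀ * V).map (fun z : ℤ => (z : ℝ)) = (1 : Matrix (Fin n) (Fin n) ℝ) := by
      rw [h2]; ext i j; simp [Matrix.one_apply]
    rw [← h3]
    ext i j
    simp [Matrix.mul_apply, hUr, hVr]
  have hA' : IsUnit A.det := isUnit_iff_ne_zero.2 hA
  have hAT : IsUnit (Aᵀ).det := by rw [Matrix.det_transpose]; exact hA'
  set P := gram A V with hP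
  -- M * P = 1
  have hMP : P * M = 1 := by
    have h1 : P = (A * Vr)ᵀ * (A * Vr) := rfl
    have h2 : M = ((Aᵀ)⁻¹ * Ur)ᵀ * ((Aᵀ)⁻¹ * Ur) := rfl
    have h3 : (A * Vr) * ((Aᵀ)⁻¹ * Ur)ᵀ = 1 := by
      rw [Matrix.transpose_mul, Matrix.transpose_nonsing_inv, Matrix.transpose_transpose]
      have h4 : Vr * Urᵀ = 1 := mul_eq_one_comm.1 hUV
      calc A * Vr * (Urᵀ * A⁻¹) = A * (Vr * Urᵀ) * A⁻¹ := by simp only [Matrix.mul_assoc]
        _ = 1 := by rw [h4, Matrix.mul_one, Matrix.mul_nonsing_inv A hA']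
    have h5 : (A * Vr)ᵀ * ((Aᵀ)⁻¹ * Ur) = 1 := by
      rw [Matrix.transpose_mul]
      calc Vrᵀ * Aᵀ * ((Aᵀ)⁻¹ * Ur) = Vrᵀ * (Aᵀ * (Aᵀ)⁻¹) * Ur := by simp only [Matrix.mul_assoc]
        _ = Vrᵀ * Ur := by rw [Matrix.mul_nonsing_inv _ hAT, Matrix.mul_one]
        _ = (Urᵀ * Vr)ᵀ := by rw [Matrix.transpose_mul, Matrix.transpose_transpose]
        _ = 1 := by rw [hUV, Matrix.transpose_one]
    rw [h1, h2]
    calc (A * Vr)ᵀ * (A * Vr) * (((Aᵀ)⁻¹ * Ur)ᵀ * ((Aᵀ)⁻¹ * Ur))
        = (A * Vr)ᵀ * ((A * Vr) * ((Aᵀ)⁻¹ * Ur)ᵀ) * ((Aᵀ)⁻¹ * Ur) := by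
          simp only [Matrix.mul_assoc]
      _ = 1 := by rw [h3, Matrix.mul_one, h5]
  have hVdet : V.det ≠ 0 := by
    intro h0
    have h1 : (Urᵀ * Vr).det = 1 := by rw [hUV, Matrix.det_one]
    have h2 : Vr.det = (V.det : ℝ) := by
      have := (Int.castRingHom ℝ).map_det V
      simpa using this.symm
    rw [Matrix.det_mul, h2, h0] at h1
    simp at h1
  have hAt : AtLeast P (lam A) := atLeast_gram A V hVdet
  have hPs : ∀ i j, P i j = P j i := gram_symm A V
  have hMs : ∀ i j, M i j = M j i := gram_symm _ U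
  have hl := lam_nonneg A
  have hpair := wpairing M P hMs hPs (fun i => (d i : ℝ)) D (lam A)
    (fun i => by exact_mod_cast hd i) (fun i => by exact_mod_cast hdD i) hl h
    (fun i => diag_ge hAt i) (fun i k hik s hs => by
      have hne : ∀ t u : ℤ, t ≠ 0 → (Pi.single i t + Pi.single k u : Fin n → ℤ) ≠ 0 := by
        intro t u ht h2
        have := congrFun h2 i
        simp [Pi.single_apply, hik] at this
        exact ht this
      have hdk : ((d k : ℕ) : ℤ) ≠ 0 := by exact_mod_cast (hd k).ne'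
      rcases hs with rfl | rfl
      · have h1 := hAt _ (hne (d k) (d i) hdk)
        rw [qf_pair2 P hPs] at h1
        push_cast at h1
        linarith
      · have h1 := hAt _ (hne (d k) (-(d i : ℤ)) hdk)
        rw [qf_pair2 P hPs] at h1
        push_cast at h1
        linarith)
  have hn1 : ∑ i, ∑ k, M i k * P i k = n := by
    have h1 : ∀ k, ∑ i, M i k * P i k = 1 := by
      intro k
      have h2 := congrFun (congrFun hMP k) k
      rw [Matrix.mul_apply, Matrix.one_apply_eq] at h2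
      rw [← h2]
      exact Finset.sum_congr rfl fun i _ => by rw [hPs i k]; ring
    rw [Finset.sum_comm]
    simp [h1]
  rw [hn1] at hpair
  have htr : lam A * M.trace ≤ 2 * (D : ℝ) ^ 2 * n := by
    unfold Matrix.trace
    simpa only [Matrix.diag_apply] using hpair
  have hdet := det_le_trace hn ((Aᵀ)⁻¹ * Ur)
  have hM' : ((Aᵀ)⁻¹ * Ur)ᵀ * ((Aᵀ)⁻¹ * Ur) = M := rfl
  rw [hM'] at hdet
  have hdetM : M.det * A.det ^ 2 = 1 := by
    have h1 : (P * M).det = 1 := by rw [hMP, Matrix.det_one]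
    have h2 : P.det = A.det ^ 2 * (V.det : ℝ) ^ 2 := gram_det A V
    have h3 : (V.det : ℝ) ^ 2 = 1 := by
      have h4 : IsUnit V.det := by
        rw [hV, Matrix.det_transpose]
        exact (Matrix.isUnit_nonsing_inv_det U hU)
      rcases Int.isUnit_iff.1 h4 with h5 | h5 <;> rw [h5] <;> norm_num
    rw [Matrix.det_mul, h2, h3] at h1
    linarith
  have hn' : (0 : ℝ) < n := by positivity
  have hDp : (0 : ℝ) < D := by
    have h1 : 0 < d ⟨0, hn⟩ := hd _
    have h2 := hdD ⟨0, hn⟩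
    have : 0 < D := by omega
    exact_mod_cast this
  have htr0 : 0 ≤ M.trace := Finset.sum_nonneg fun i _ => gram_diag_nonneg _ U i
  have h5 : (lam A / (2 * (D : ℝ) ^ 2)) ^ n * M.det ≤ 1 := by
    calc (lam A / (2 * (D : ℝ) ^ 2)) ^ n * M.det
        ≤ (lam A / (2 * (D : ℝ) ^ 2)) ^ n * (M.trace / n) ^ n :=
          mul_le_mul_of_nonneg_left hdet (by positivity)
      _ = (lam A * M.trace / (2 * (D : ℝ) ^ 2 * n)) ^ n := by
          rw [← mul_pow]; congr 1; field_simp
      _ ≤ 1 ^ n := by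
          refine pow_le_pow_left₀ (by positivity) ?_ n
          rw [div_le_one (by positivity)]
          exact htr
      _ = 1 := one_pow n
  have h6 : ((D : ℝ) ^ 2)⁻¹ ^ n * (lam A / 2) ^ n ≤ A.det ^ 2 * 1 ^ 2 := by
    have h7 := mul_le_mul_of_nonneg_right h5 (sq_nonneg A.det)
    have h8 : (lam A / (2 * (D : ℝ) ^ 2)) ^ n * M.det * A.det ^ 2
        = (lam A / (2 * (D : ℝ) ^ 2)) ^ n := by
      rw [mul_assoc, hdetM, mul_one]
    rw [h8] at h7
    have h9 : ((D : ℝ) ^ 2)⁻¹ ^ n * (lam A / 2) ^ n = (lam A / (2 * (D : ℝ) ^ 2)) ^ n := by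
      rw [← mul_pow]; congr 1; field_simp
    rw [h9]
    linarith
  have h9 := gam_le_of_det hn A hA 1 (((D : ℝ) ^ 2)⁻¹ ^ n) one_pos (by positivity) h6
  have h10 : ((((D : ℝ) ^ 2)⁻¹ ^ n : ℝ)) ^ (-(1 : ℝ) / n) = (D : ℝ) ^ 2 := by
    rw [← Real.rpow_natCast, ← Real.rpow_mul (by positivity),
      show ((n : ℝ) * (-1 / n)) = -1 by field_simp, Real.rpow_neg_one, inv_inv]
  rw [h10] at h9
  simpa using h9

end Pool.Agent.H6.DD
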