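import Pool.Agent.H6.DD.Det

/-!
# The recursion for determinants of diagonally dominant forms (helper6)
-/

set_option autoImplicit false

open Matrix Finset

namespace Pool.Agent.H6.DD

/-- the hyperplane `x_j = - s x_i`, `i = j.succAbove p₀` -/
def pairA {n : ℕ} (s : ℤ) (p₀ : Fin n) : Fin n → ℤ := fun p => if p = p₀ then -s else 0

lemma vec_zero {n : ℕ} (j l : Fin (n + 1)) : vec j (0 : Fin n → ℤ) l = if l = j then 1 else 0 := by
  refine Fin.succAboveCases j ?_ (fun p => ?_) l
  · simp [vec]
  · simp [vec, Fin.succAbove_ne]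

lemma vec_pair {n : ℕ} (j l : Fin (n + 1)) (s : ℤ) (p₀ : Fin n) :
    vec j (pairA s p₀) l = (if l = j then 1 else 0) + (if l = j.succAbove p₀ then (s : ℝ) else 0) := by
  refine Fin.succAboveCases j ?_ (fun p => ?_) l
  · simp [vec, (Fin.succAbove_ne j p₀).symm]
  · by_cases h : p = p₀
    · simp [vec, pairA, h, Fin.succAbove_ne]
    · have : j.succAbove p ≠ j.succAbove p₀ := fun h' => h (Fin.succAbove_right_injective h')
      simp [vec, pairA, h, Fin.succAbove_ne]

lemma det_cut_zero {n : ℕ} (M : Matrix (Fin (n + 1)) (Fin (n + 1)) ℝ) (j : Fin (n + 1)) :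
    (cut M j 0).det = M.adjugate j j := by
  rw [det_cut]
  simp [vec_zero]

lemma det_cut_pair {n : ℕ} (M : Matrix (Fin (n + 1)) (Fin (n + 1)) ℝ)
    (hM : ∀ i j, M i j = M j i) (j : Fin (n + 1)) (s : ℤ) (hs : (s : ℝ) * s = 1) (p₀ : Fin n) :
    (cut M j (pairA s p₀)).det = M.adjugate j j + M.adjugate (j.succAbove p₀) (j.succAbove p₀)
      + 2 * s * M.adjugate j (j.succAbove p₀) := by
  have hsym : ∀ a b, M.adjugate a b = M.adjugate b a := by
    intro a b
    have h1 : Mᵀ = M := by ext i j; exact hM j i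
    have h2 := Matrix.adjugate_transpose M
    rw [h1] at h2
    have h3 := congrFun (congrFun h2 b) a
    rw [Matrix.transpose_apply] at h3
    exact h3
  rw [det_cut]
  simp only [vec_pair, add_mul, mul_add, Finset.sum_add_distrib, ite_mul, mul_ite, one_mul,
    mul_one, zero_mul, mul_zero, Finset.sum_ite_eq', Finset.mem_univ, if_true]
  rw [hsym (j.succAbove p₀) j]
  linear_combination (M.adjugate (j.succAbove p₀) (j.succAbove p₀)) * hs

/-- **The pairing inequality.** -/
theorem pairing {n : ℕ} (M A : Matrix (Fin n) (Fin n) ℝ) (hM : Dom M)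
    (hAsym : ∀ a b, A a b = A b a) (D : ℝ) (hAD : ∀ i, D ≤ A i i)
    (h1 : ∀ i k, i ≠ k → ∃ s : ℝ, s * s = 1 ∧ s * M i k = |M i k| ∧
      D ≤ A i i + A k k + 2 * s * A i k) :
    D * ∑ i, (M i i + (2 * M i i - ∑ k, |M i k|)) ≤ 2 * ∑ i, ∑ k, M i k * A i k := by
  obtain ⟨hsym, hdom⟩ := hM
  -- off-diagonal terms
  have hoff : ∀ i k, i ≠ k → 0 ≤ |M i k| * (A k k + A i i) + 2 * (M i k * A i k) - |M i k| * D := by
    intro i k hik
    obtain ⟨s, hs, hsM, hD⟩ := h1 i k hik
    have h4 : M i k = s * |M i k| := by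
      rw [← hsM, ← mul_assoc, hs, one_mul]
    have h5 : 0 ≤ |M i k| := abs_nonneg _
    have h6 := mul_le_mul_of_nonneg_left hD h5
    have h7 : 2 * (M i k * A i k) = |M i k| * (2 * s * A i k) := by
      nth_rewrite 1 [h4]
      ring
    rw [h7]
    have h8 : |M i k| * (A k k + A i i) + |M i k| * (2 * s * A i k)
        = |M i k| * (A i i + A k k + 2 * s * A i k) := by ring
    rw [h8]
    linarith
  have hdiag : ∀ i, |M i i| = M i i := by
    intro i
    apply abs_of_nonneg
    have h4 := hdom i
    have h5 : 0 ≤ ∑ k, |M i k| := Finset.sum_nonneg fun k _ => abs_nonneg _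
    linarith
  have hsum : ∑ i, (4 * (M i i * A i i) - M i i * D)
      ≤ ∑ i, ∑ k, (|M i k| * (A k k + A i i) + 2 * (M i k * A i k) - |M i k| * D) := by
    refine Finset.sum_le_sum fun i _ => ?_
    rw [← Finset.add_sum_erase _ _ (Finset.mem_univ i), hdiag i]
    have h5 : 0 ≤ ∑ k ∈ univ.erase i, (|M i k| * (A k k + A i i)
        + 2 * (M i k * A i k) - |M i k| * D) :=
      Finset.sum_nonneg fun k hk => hoff i _ (Finset.ne_of_mem_erase hk).symm
    linarith
  have e1 : ∑ i, ∑ k, (|M i k| * (A k k + A i i) + 2 * (M i k * A i k) - |M i k| * D)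
      = 2 * ∑ i, A i i * ∑ k, |M i k| + 2 * (∑ i, ∑ k, M i k * A i k)
        - D * ∑ i, ∑ k, |M i k| := by
    have e2 : ∑ i, ∑ k, |M i k| * A k k = ∑ i, A i i * ∑ k, |M i k| := by
      rw [Finset.sum_comm]
      refine Finset.sum_congr rfl fun k _ => ?_
      rw [Finset.mul_sum]
      refine Finset.sum_congr rfl fun i _ => ?_
      rw [hsym i k]
      ring
    have e3 : ∑ i, ∑ k, |M i k| * A i i = ∑ i, A i i * ∑ k, |M i k| := by
      refine Finset.sum_congr rfl fun k _ => ?_
      rw [Finset.mul_sum]
      refine Finset.sum_congr rfl fun i _ => ?_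
      ring
    have e4 : ∑ i, ∑ k, |M i k| * D = D * ∑ i, ∑ k, |M i k| := by
      rw [Finset.mul_sum]
      refine Finset.sum_congr rfl fun i _ => ?_
      rw [Finset.mul_sum]
      refine Finset.sum_congr rfl fun k _ => ?_
      ring
    simp only [Finset.sum_sub_distrib, Finset.sum_add_distrib, mul_add, ← Finset.mul_sum, e2,
      e3, e4]
    ring
  rw [e1] at hsum
  have hR : ∀ i, 0 ≤ 2 * M i i - ∑ k, |M i k| := fun i => by linarith [hdom i]
  have h9 : ∑ i, D * (2 * (2 * M i i - ∑ k, |M i k|))
      ≤ ∑ i, A i i * (2 * (2 * M i i - ∑ k, |M i k|)) :=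
    Finset.sum_le_sum fun i _ => mul_le_mul_of_nonneg_right (hAD i) (by linarith [hR i])
  have e5 : ∑ i, (4 * (M i i * A i i) - M i i * D) = 4 * (∑ i, M i i * A i i) - D * ∑ i, M i i := by
    have e9 : D * ∑ i, M i i = ∑ i, M i i * D := by
      rw [Finset.mul_sum]
      exact Finset.sum_congr rfl fun i _ => by ring
    rw [Finset.sum_sub_distrib, ← Finset.mul_sum, e9]
  have e6 : ∑ i, A i i * (2 * (2 * M i i - ∑ k, |M i k|))
      = 4 * (∑ i, M i i * A i i) - 2 * ∑ i, A i i * ∑ k, |M i k| := by
    rw [Finset.mul_sum, Finset.mul_sum, ← Finset.sum_sub_distrib]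
    exact Finset.sum_congr rfl fun i _ => by ring
  have e7 : ∑ i, D * (2 * (2 * M i i - ∑ k, |M i k|))
      = 4 * (D * ∑ i, M i i) - 2 * (D * ∑ i, ∑ k, |M i k|) := by
    rw [Finset.mul_sum, Finset.mul_sum, Finset.mul_sum, Finset.mul_sum, ← Finset.sum_sub_distrib]
    exact Finset.sum_congr rfl fun i _ => by ring
  have e8 : D * ∑ i, (M i i + (2 * M i i - ∑ k, |M i k|))
      = 3 * (D * ∑ i, M i i) - D * ∑ i, ∑ k, |M i k| := by
    rw [Finset.mul_sum, Finset.mul_sum, Finset.mul_sum, Finset.mul_sum, ← Finset.sum_sub_distrib]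
    exact Finset.sum_congr rfl fun i _ => by ring
  rw [e5] at hsum
  rw [e6, e7] at h9
  rw [e8]
  linarith

/-- **The recursion.** -/
theorem step {n : ℕ} (M : Matrix (Fin (n + 1)) (Fin (n + 1)) ℝ) (hM : Dom M) (D : ℝ)
    (h0 : ∀ j, D ≤ (cut M j 0).det)
    (h1 : ∀ (j : Fin (n + 1)) (p₀ : Fin n), ∃ s : ℤ, (s : ℝ) * s = 1 ∧
      (s : ℝ) * M j (j.succAbove p₀) = |M j (j.succAbove p₀)| ∧
      D ≤ (cut M j (pairA s p₀)).det) :
    D * ∑ i, (M i i + (2 * M i i - ∑ k, |M i k|)) ≤ 2 * (n + 1) * M.det := by
  have hsym := hM.1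
  set A := M.adjugate with hA
  have hAsym : ∀ a b, A a b = A b a := by
    intro a b
    have h1 : Mᵀ = M := by ext i j; exact hsym j i
    have h2 := Matrix.adjugate_transpose M
    rw [h1] at h2
    have h3 := congrFun (congrFun h2 b) a
    rw [Matrix.transpose_apply] at h3
    exact h3
  have hAD : ∀ i, D ≤ A i i := fun i => by rw [hA, ← det_cut_zero]; exact h0 i
  -- trace identity
  have htr : ∑ i, ∑ k, M i k * A i k = (n + 1) * M.det := by
    have h2 : M * A = M.det • (1 : Matrix _ _ ℝ) := Matrix.mul_adjugate M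
    have h3 : ∀ i, ∑ k, M i k * A k i = M.det := by
      intro i
      have := congrFun (congrFun h2 i) i
      rw [Matrix.mul_apply] at this
      rw [this]
      simp
    calc ∑ i, ∑ k, M i k * A i k = ∑ i, ∑ k, M i k * A k i := by
          refine Finset.sum_congr rfl fun i _ => Finset.sum_congr rfl fun k _ => ?_
          rw [hAsym i k]
      _ = ∑ i : Fin (n + 1), M.det := Finset.sum_congr rfl fun i _ => h3 i
      _ = (n + 1) * M.det := by simp
  have h2 := pairing M A hM hAsym D hAD (fun i k hik => by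
    obtain ⟨p₀, rfl⟩ := Fin.exists_succAbove_eq (Ne.symm hik)
    obtain ⟨s, hs, hsM, hD⟩ := h1 i p₀
    rw [det_cut_pair M hsym i s hs p₀] at hD
    exact ⟨s, hs, hsM, hD⟩)
  rw [htr] at h2
  linarith

/-! ### Closure of the classes under cuts -/

lemma dom_cut_zero {n : ℕ} {M : Matrix (Fin (n + 1)) (Fin (n + 1)) ℝ} (hM : Dom M)
    (j : Fin (n + 1)) : Dom (cut M j 0) := by
  refine ⟨fun p q => by simp [cut, hM.1 (j.succAbove p)], fun p => ?_⟩
  have h := hM.2 (j.succAbove p)
  rw [Fin.sum_univ_succAbove _ j] at h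
  simp only [cut, Pi.zero_apply, Int.cast_zero, zero_mul, mul_zero, add_zero]
  have := abs_nonneg (M (j.succAbove p) j)
  linarith

lemma dom_cut_pair {n : ℕ} {M : Matrix (Fin (n + 1)) (Fin (n + 1)) ℝ} (hM : Dom M)
    (j : Fin (n + 1)) (p₀ : Fin n) (s : ℤ) (hs : (s : ℝ) * s = 1)
    (hsM : (s : ℝ) * M j (j.succAbove p₀) = |M j (j.succAbove p₀)|) :
    Dom (cut M j (pairA s p₀)) := by
  obtain ⟨hsym, hdom⟩ := hM
  have habs : |(s : ℝ)| = 1 := by
    have := abs_mul_abs_self (s : ℝ)
    rw [hs] at this
    nlinarith [abs_nonneg (s : ℝ)]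
  have hdiag : ∀ i, |M i i| = M i i := by
    intro i
    apply abs_of_nonneg
    have h4 := hdom i
    have h5 : 0 ≤ ∑ k, |M i k| := Finset.sum_nonneg fun k _ => abs_nonneg _
    linarith
  refine ⟨fun p q => ?_, fun p => ?_⟩
  · simp only [cut]
    rw [hsym (j.succAbove p) (j.succAbove q), hsym j (j.succAbove q), hsym (j.succAbove p) j]
    ring
  · by_cases hp : p = p₀
    · subst hp
      have hpos : |cut M j (pairA s p) p p| = cut M j (pairA s p) p p ∧
          cut M j (pairA s p) p p = M (j.succAbove p) (j.succAbove p) + M j j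
            - 2 * |M j (j.succAbove p)| := by
        have e : cut M j (pairA s p) p p = M (j.succAbove p) (j.succAbove p) + M j j
            - 2 * |M j (j.succAbove p)| := by
          simp only [cut, pairA, if_true]
          rw [hsym (j.succAbove p) j, ← hsM]
          push_cast
          linear_combination (M j j) * hs
        refine ⟨?_, e⟩
        rw [e]
        apply abs_of_nonneg
        have h4 := hdom j
        rw [Fin.sum_univ_succAbove _ j, hdiag j] at h4
        have h5 : |M j (j.succAbove p)| ≤ ∑ q, |M j (j.succAbove q)| :=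
          Finset.single_le_sum (f := fun q => |M j (j.succAbove q)|) (fun q _ => abs_nonneg _)
            (Finset.mem_univ p)
        have h6 := hdom (j.succAbove p)
        rw [Fin.sum_univ_succAbove _ j] at h6
        have h7 : |M (j.succAbove p) (j.succAbove p)| ≤ ∑ q, |M (j.succAbove p) (j.succAbove q)| :=
          Finset.single_le_sum (f := fun q => |M (j.succAbove p) (j.succAbove q)|)
            (fun q _ => abs_nonneg _) (Finset.mem_univ p)
        rw [hdiag, hsym _ j] at *
        linarith
      -- bound of the row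
      have hrow : ∀ q, q ≠ p → |cut M j (pairA s p) p q|
          ≤ |M (j.succAbove p) (j.succAbove q)| + |M j (j.succAbove q)| := by
        intro q hq
        have e : cut M j (pairA s p) p q = M (j.succAbove p) (j.succAbove q)
            + -(s * M j (j.succAbove q)) := by
          simp only [cut, pairA, if_true, if_neg hq]
          push_cast
          ring
        rw [e]
        refine (abs_add_le _ _).trans ?_
        rw [abs_neg, abs_mul, habs, one_mul]
      have h8 : ∑ q, |cut M j (pairA s p) p q|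
          ≤ ∑ q, (|M (j.succAbove p) (j.succAbove q)| + |M j (j.succAbove q)|)
            + (|cut M j (pairA s p) p p|
              - (|M (j.succAbove p) (j.succAbove p)| + |M j (j.succAbove p)|)) := by
        rw [← Finset.add_sum_erase _ _ (Finset.mem_univ p),
          ← Finset.add_sum_erase univ (fun q => |M (j.succAbove p) (j.succAbove q)|
            + |M j (j.succAbove q)|) (Finset.mem_univ p)]
        have h9 : ∑ q ∈ univ.erase p, |cut M j (pairA s p) p q|
            ≤ ∑ q ∈ univ.erase p, (|M (j.succAbove p) (j.succAbove q)| + |M j (j.succAbove q)|) :=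
          Finset.sum_le_sum fun q hq => hrow q (Finset.ne_of_mem_erase hq)
        linarith
      rw [Finset.sum_add_distrib] at h8
      have h4 := hdom j
      rw [Fin.sum_univ_succAbove _ j] at h4
      have h6 := hdom (j.succAbove p)
      rw [Fin.sum_univ_succAbove _ j] at h6
      rw [hsym (j.succAbove p) j] at h6
      have h10 := hdiag j
      have h11 := hdiag (j.succAbove p)
      rw [hpos.1, hpos.2] at h8
      rw [hpos.2]
      linarith
    · have hrow : ∀ q, |cut M j (pairA s p₀) p q| ≤ |M (j.succAbove p) (j.succAbove q)|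
          + (if q = p₀ then |M (j.succAbove p) j| else 0) := by
        intro q
        by_cases hq : q = p₀
        · subst hq
          have e : cut M j (pairA s q) p q = M (j.succAbove p) (j.succAbove q)
              + -(s * M (j.succAbove p) j) := by
            simp only [cut, pairA, if_true, if_neg hp]
            push_cast
            ring
          rw [e, if_pos rfl]
          refine (abs_add_le _ _).trans ?_
          rw [abs_neg, abs_mul, habs, one_mul]
        · have e : cut M j (pairA s p₀) p q = M (j.succAbove p) (j.succAbove q) := by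
            simp only [cut, pairA, if_neg hp, if_neg hq]
            push_cast
            ring
          rw [e, if_neg hq, add_zero]
      have h8 : ∑ q, |cut M j (pairA s p₀) p q| ≤ ∑ q, |M (j.succAbove p) (j.succAbove q)|
          + |M (j.succAbove p) j| := by
        refine (Finset.sum_le_sum fun q _ => hrow q).trans ?_
        rw [Finset.sum_add_distrib]
        simp
      have h6 := hdom (j.succAbove p)
      rw [Fin.sum_univ_succAbove _ j] at h6
      have e : cut M j (pairA s p₀) p p = M (j.succAbove p) (j.succAbove p) := by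
        simp only [cut, pairA, if_neg hp]
        push_cast
        ring
      rw [e]
      linarith

/-- The off-diagonal entries are not positive. -/
def Neg {n : ℕ} (M : Matrix (Fin n) (Fin n) ℝ) : Prop := ∀ i j, i ≠ j → M i j ≤ 0

lemma neg_cut_zero {n : ℕ} {M : Matrix (Fin (n + 1)) (Fin (n + 1)) ℝ} (hM : Neg M)
    (j : Fin (n + 1)) : Neg (cut M j 0) := by
  intro p q hpq
  simp only [cut, Pi.zero_apply, Int.cast_zero, zero_mul, mul_zero, add_zero]
  exact hM _ _ fun h => hpq (Fin.succAbove_right_injective h)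

lemma neg_cut_pair {n : ℕ} {M : Matrix (Fin (n + 1)) (Fin (n + 1)) ℝ} (hM : Neg M)
    (j : Fin (n + 1)) (p₀ : Fin n) : Neg (cut M j (pairA (-1) p₀)) := by
  intro p q hpq
  have h1 := hM (j.succAbove p) (j.succAbove q) fun h => hpq (Fin.succAbove_right_injective h)
  have h2 := hM _ _ (Fin.succAbove_ne j p)
  have h3 := hM _ _ (Fin.succAbove_ne j q).symm
  by_cases hp : p = p₀
  · have hq : q ≠ p₀ := fun h => hpq (hp.trans h.symm)
    simp only [cut, pairA, if_pos hp, if_neg hq]
    push_cast
    linarith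
  · by_cases hq : q = p₀
    · simp only [cut, pairA, if_neg hp, if_pos hq]
      push_cast
      linarith
    · simp only [cut, pairA, if_neg hp, if_neg hq]
      push_cast
      linarith

/-- all ones -/
lemma qf_one {n : ℕ} (M : Matrix (Fin n) (Fin n) ℝ) : qf M 1 = ∑ i, ∑ k, M i k := by
  simp [qf]

lemma qf_single {n : ℕ} (M : Matrix (Fin n) (Fin n) ℝ) (i : Fin n) :
    qf M (Pi.single i 1) = M i i := by
  unfold qf
  rw [Finset.sum_eq_single i]
  · rw [Finset.sum_eq_single i]
    · simp
    · intro k _ hk; simp [Pi.single_apply, hk]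
    · simp
  · intro k _ hk; simp [Pi.single_apply, hk]
  · simp

lemma diag_ge {n : ℕ} {M : Matrix (Fin n) (Fin n) ℝ} {lam : ℝ} (h : AtLeast M lam) (i : Fin n) :
    lam ≤ M i i := by
  rw [← qf_single M i]
  apply h
  intro h0
  have := congrFun h0 i
  simp at this

/-- **Voronoi's first kind.** Nonpositive off-diagonal entries and nonnegative row sums. -/
theorem det_ge_of_neg (lam : ℝ) (hlam : 0 ≤ lam) : ∀ (n : ℕ) (M : Matrix (Fin n) (Fin n) ℝ),
    Dom M → Neg M → AtLeast M lam → (n + 1) * (lam / 2) ^ n ≤ M.det := by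
  intro n
  induction n with
  | zero => intro M _ _ _; simp
  | succ n ih =>
    intro M hdom hneg hM
    set D : ℝ := (n + 1) * (lam / 2) ^ n with hD
    have hD0 : 0 ≤ D := by positivity
    have h := step M hdom D (fun j => ih _ (dom_cut_zero hdom j) (neg_cut_zero hneg j) (hM.cut j 0))
      (fun j p₀ => by
        have hs : ((-1 : ℤ) : ℝ) * ((-1 : ℤ) : ℝ) = 1 := by norm_num
        have hsM : ((-1 : ℤ) : ℝ) * M j (j.succAbove p₀) = |M j (j.succAbove p₀)| := by
          rw [abs_of_nonpos (hneg _ _ (Fin.succAbove_ne j p₀).symm)]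
          push_cast; ring
        exact ⟨-1, hs, hsM, ih _ (dom_cut_pair hdom j p₀ (-1) hs hsM) (neg_cut_pair hneg j p₀)
          (hM.cut j _)⟩)
    have h1 : (n + 2) * lam ≤ ∑ i, (M i i + (2 * M i i - ∑ k, |M i k|)) := by
      have h2 : ∀ i, 2 * M i i - ∑ k, |M i k| = ∑ k, M i k := by
        intro i
        rw [Fin.sum_univ_succAbove _ i, Fin.sum_univ_succAbove _ i]
        have h3 : ∑ p, |M i (i.succAbove p)| = -∑ p, M i (i.succAbove p) := by
          rw [← Finset.sum_neg_distrib]
          exact Finset.sum_congr rfl fun p _ =>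
            abs_of_nonpos (hneg _ _ (Fin.succAbove_ne i p).symm)
        have h4 : |M i i| = M i i := abs_of_nonneg (hlam.trans (diag_ge hM i))
        rw [h3, h4]
        ring
      rw [Finset.sum_add_distrib]
      simp only [h2]
      rw [← qf_one]
      have h5 : lam ≤ qf M 1 := by
        apply hM
        intro h0
        have := congrFun h0 0
        simp at this
      have h6 : ∑ _i : Fin (n + 1), lam ≤ ∑ i, M i i := Finset.sum_le_sum fun i _ => diag_ge hM i
      rw [Finset.sum_const, Finset.card_univ, Fintype.card_fin, nsmul_eq_mul] at h6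
      push_cast at h6
      linarith
    have h7 := mul_le_mul_of_nonneg_left h1 hD0
    have h8 : D * ((n + 2) * lam) ≤ 2 * (n + 1) * M.det := h7.trans h
    have hn : (0 : ℝ) < n + 1 := by positivity
    have h9 : D * ((n + 2) * lam) = 2 * (n + 1) * ((n + 2) * (lam / 2) ^ (n + 1)) := by
      rw [hD, pow_succ]; ring
    rw [h9] at h8
    have h10 := le_of_mul_le_mul_left h8 (by positivity)
    push_cast
    linarith

end Pool.Agent.H6.DD
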