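import Pool.Agent.H6.DD.Bound

/-!
# Every lattice has a basis with negative inner products; weighted diagonal dominance (helper6)
-/

set_option autoImplicit false

open Matrix Finset

namespace Pool.Agent.H6.DD

/-- the real quadratic form of a matrix -/
def rf {n : ℕ} (G : Matrix (Fin n) (Fin n) ℝ) (x : Fin n → ℝ) : ℝ :=
  ∑ i, ∑ j, x i * G i j * x j

lemma rf_eq {n : ℕ} (G : Matrix (Fin n) (Fin n) ℝ) (x : Fin n → ℝ) :
    rf G x = ∑ i, x i * (G.mulVec x) i := by
  unfold rf
  simp only [Matrix.mulVec, dotProduct, Finset.mul_sum]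
  exact Finset.sum_congr rfl fun i _ => Finset.sum_congr rfl fun j _ => by ring

lemma gram_pos {n : ℕ} (A : Matrix (Fin n) (Fin n) ℝ) (hA : A.det ≠ 0)
    (U : Matrix (Fin n) (Fin n) ℤ) (hU : U.det ≠ 0) (x : Fin n → ℝ) (hx : x ≠ 0) :
    0 < rf (gram A U) x := by
  set B : Matrix (Fin n) (Fin n) ℝ := A * U.map (fun z : ℤ => (z : ℝ)) with hB
  have hBdet : B.det ≠ 0 := by
    rw [hB, Matrix.det_mul]
    refine mul_ne_zero hA ?_
    have : (U.map (fun z : ℤ => (z : ℝ))).det = (U.det : ℝ) := by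
      have := (Int.castRingHom ℝ).map_det U
      simpa using this.symm
    rw [this]
    exact_mod_cast hU
  have h1 : rf (gram A U) x = ∑ i, (B.mulVec x) i ^ 2 := by
    have h2 : rf (gram A U) x = x ⬝ᵥ (gram A U).mulVec x := by
      rw [rf_eq]; rfl
    have h3 : gram A U = Bᵀ * B := rfl
    rw [h2, h3, ← Matrix.mulVec_mulVec, Matrix.dotProduct_mulVec, Matrix.vecMul_transpose]
    simp only [dotProduct]
    exact Finset.sum_congr rfl fun i _ => by ring
  have h4 : B.mulVec x ≠ 0 := fun h => hx (Matrix.eq_zero_of_mulVec_eq_zero hBdet h)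
  obtain ⟨i, hi⟩ := Function.ne_iff.1 h4
  rw [h1]
  have h5 : (B.mulVec x) i ^ 2 ≤ ∑ i, (B.mulVec x) i ^ 2 :=
    Finset.single_le_sum (f := fun i => (B.mulVec x) i ^ 2) (fun i _ => sq_nonneg _)
      (Finset.mem_univ i)
  have h6 : 0 < (B.mulVec x) i ^ 2 := by
    have : (B.mulVec x) i ≠ 0 := hi
    positivity
  linarith

/-- a direction in the span of the first vectors with negative inner products with them -/
lemma exists_dir {n : ℕ} (G : Matrix (Fin n) (Fin n) ℝ)
    (hG : ∀ x : Fin n → ℝ, x ≠ 0 → 0 < rf G x) (k : Fin n) :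
    ∃ c : Fin n → ℝ, (∀ i, k ≤ i → c i = 0) ∧ ∀ i, i < k → ∑ l, G i l * c l = -1 := by
  classical
  set H : Matrix (Fin n) (Fin n) ℝ := fun i j =>
    if i < k ∧ j < k then G i j else if i = j then 1 else 0 with hH
  have hlow : ∀ (x : Fin n → ℝ) (i : Fin n), k ≤ i → (H.mulVec x) i = x i := by
    intro x i hi
    simp only [Matrix.mulVec, dotProduct, hH]
    have : ∀ j, (if i < k ∧ j < k then G i j else if i = j then 1 else 0) * x j
        = if i = j then x j else 0 := by
      intro j
      rw [if_neg (fun h => absurd h.1 (not_lt.2 hi))]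
      split_ifs <;> simp
    simp only [this]
    simp
  have hup : ∀ (x : Fin n → ℝ) (i : Fin n), i < k → (∀ j, k ≤ j → x j = 0) →
      (H.mulVec x) i = ∑ l, G i l * x l := by
    intro x i hi hx
    simp only [Matrix.mulVec, dotProduct, hH]
    refine Finset.sum_congr rfl fun j _ => ?_
    by_cases hj : j < k
    · rw [if_pos ⟨hi, hj⟩]
    · rw [hx j (not_lt.1 hj), mul_zero, mul_zero]
  have hdet : H.det ≠ 0 := by
    intro h0
    obtain ⟨x, hx, hHx⟩ := Matrix.exists_mulVec_eq_zero_iff.2 h0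
    have h1 : ∀ j, k ≤ j → x j = 0 := fun j hj => by
      rw [← hlow x j hj, hHx]; rfl
    have h2 := hG x hx
    rw [rf_eq] at h2
    have h3 : ∑ i, x i * (G.mulVec x) i = 0 := by
      apply Finset.sum_eq_zero
      intro i _
      by_cases hi : i < k
      · have h4 := hup x i hi h1
        rw [hHx] at h4
        have h5 : (G.mulVec x) i = ∑ l, G i l * x l := rfl
        rw [h5, ← h4]
        simp
      · rw [h1 i (not_lt.1 hi), zero_mul]
    linarith
  have hunit : IsUnit H.det := isUnit_iff_ne_zero.2 hdet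
  set v : Fin n → ℝ := fun i => if i < k then -1 else 0 with hv
  refine ⟨H⁻¹.mulVec v, ?_, ?_⟩
  · intro i hi
    rw [← hlow (H⁻¹.mulVec v) i hi, Matrix.mulVec_mulVec, Matrix.mul_nonsing_inv H hunit,
      Matrix.one_mulVec]
    simp [hv, not_lt.2 hi]
  · intro i hi
    rw [← hup (H⁻¹.mulVec v) i hi]
    · rw [Matrix.mulVec_mulVec, Matrix.mul_nonsing_inv H hunit, Matrix.one_mulVec]
      simp [hv, hi]
    · intro j hj
      rw [← hlow (H⁻¹.mulVec v) j hj, Matrix.mulVec_mulVec, Matrix.mul_nonsing_inv H hunit,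
        Matrix.one_mulVec]
      simp [hv, not_lt.2 hj]

/-- adding `t` times the other columns to the column `k` -/
def addCol {n : ℕ} (k : Fin n) (t : Fin n → ℤ) : Matrix (Fin n) (Fin n) ℤ := fun i j =>
  (if i = j then 1 else 0) + (if j = k then t i else 0)

lemma addCol_det {n : ℕ} (k : Fin n) (t : Fin n → ℤ) (ht : t k = 0) : (addCol k t).det = 1 := by
  have h1 : addCol k t = 1 + Matrix.replicateCol Unit t
      * Matrix.replicateRow Unit (Pi.single k 1 : Fin n → ℤ) := by
    ext i j
    rw [Matrix.add_apply, Matrix.mul_apply]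
    simp only [addCol, Matrix.one_apply, Matrix.replicateCol_apply, Matrix.replicateRow_apply,
      Pi.single_apply]
    simp
  rw [h1, Matrix.det_one_add_replicateCol_mul_replicateRow]
  simp [ht]

lemma gram_mul {n : ℕ} (A : Matrix (Fin n) (Fin n) ℝ) (U E : Matrix (Fin n) (Fin n) ℤ) :
    gram A (U * E) = (E.map (fun z : ℤ => (z : ℝ)))ᵀ * gram A U
      * E.map (fun z : ℤ => (z : ℝ)) := by
  have h1 : (U * E).map (fun z : ℤ => (z : ℝ))
      = U.map (fun z : ℤ => (z : ℝ)) * E.map (fun z : ℤ => (z : ℝ)) := by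
    ext i j
    simp [Matrix.mul_apply]
  unfold gram
  rw [h1]
  simp only [Matrix.transpose_mul, Matrix.mul_assoc]

lemma gram_addCol {n : ℕ} (A : Matrix (Fin n) (Fin n) ℝ) (U : Matrix (Fin n) (Fin n) ℤ)
    (k : Fin n) (t : Fin n → ℤ) (i j : Fin n) (hi : i ≠ k) :
    gram A (U * addCol k t) i j
      = gram A U i j + (if j = k then ∑ l, gram A U i l * (t l : ℝ) else 0) := by
  rw [gram_mul, Matrix.mul_apply]
  have h1 : ∀ b, ((addCol k t).map (fun z : ℤ => (z : ℝ)))ᵀ i b = if b = i then 1 else 0 := by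
    intro b
    simp only [Matrix.transpose_apply, Matrix.map_apply, addCol, if_neg hi, add_zero]
    push_cast
    rfl
  have h2 : ∀ b, (((addCol k t).map (fun z : ℤ => (z : ℝ)))ᵀ * gram A U) i b = gram A U i b := by
    intro b
    rw [Matrix.mul_apply]
    simp only [h1, ite_mul, one_mul, zero_mul, Finset.sum_ite_eq', Finset.mem_univ, if_true]
  simp only [h2, Matrix.map_apply, addCol]
  push_cast
  simp only [mul_add, mul_ite, mul_one, mul_zero, Finset.sum_add_distrib, Finset.sum_ite_eq',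
    Finset.mem_univ, if_true]
  congr 1
  split_ifs with h
  · rfl
  · simp

/-- **Every lattice has an obtuse basis.** -/
theorem exists_obtuse {n : ℕ} (A : Matrix (Fin n) (Fin n) ℝ) (hA : A.det ≠ 0) :
    ∀ m : ℕ, m ≤ n → ∃ U : Matrix (Fin n) (Fin n) ℤ, U.det = 1 ∧
      ∀ i j : Fin n, i ≠ j → (i : ℕ) < m → (j : ℕ) < m → gram A U i j < 0 := by
  intro m
  induction m with
  | zero => exact fun _ => ⟨1, Matrix.det_one, fun i j _ hi _ => absurd hi (Nat.not_lt_zero _)⟩
  | succ m ih =>
    intro hm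
    obtain ⟨U, hU, h⟩ := ih (by omega)
    set k : Fin n := ⟨m, by omega⟩ with hk
    set G := gram A U with hG
    obtain ⟨c, hc0, hc⟩ := exists_dir G (gram_pos A hA U (by rw [hU]; norm_num)) k
    set S : ℝ := ∑ i, ∑ l, |G i l| with hS
    have hrow : ∀ i, ∑ l, |G i l| ≤ S := fun i =>
      Finset.single_le_sum (f := fun i => ∑ l, |G i l|)
        (fun i _ => Finset.sum_nonneg fun l _ => abs_nonneg _) (Finset.mem_univ i)
    set T : ℝ := 2 * S + 1 with hT
    set t : Fin n → ℤ := fun l => round (T * c l) with ht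
    have htk : t k = 0 := by simp [ht, hc0 k le_rfl]
    have hnew : ∀ i : Fin n, i < k → gram A (U * addCol k t) i k < 0 := by
      intro i hi
      rw [gram_addCol A U k t i k hi.ne, if_pos rfl]
      have h1 : ∑ l, G i l * (t l : ℝ) = -T + ∑ l, G i l * ((t l : ℝ) - T * c l) := by
        have h2 := hc i hi
        have h3 : ∑ l, G i l * ((t l : ℝ) - T * c l)
            = ∑ l, G i l * (t l : ℝ) - T * ∑ l, G i l * c l := by
          rw [Finset.mul_sum, ← Finset.sum_sub_distrib]
          exact Finset.sum_congr rfl fun l _ => by ring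
        rw [h3, h2]; ring
      have h4 : ∑ l, G i l * ((t l : ℝ) - T * c l) ≤ ∑ l, |G i l| := by
        refine Finset.sum_le_sum fun l _ => ?_
        have h5 : |(t l : ℝ) - T * c l| ≤ 1 := by
          rw [abs_sub_comm]
          exact (abs_sub_round _).trans (by norm_num)
        calc G i l * ((t l : ℝ) - T * c l) ≤ |G i l * ((t l : ℝ) - T * c l)| := le_abs_self _
          _ = |G i l| * |(t l : ℝ) - T * c l| := abs_mul _ _
          _ ≤ |G i l| * 1 := mul_le_mul_of_nonneg_left h5 (abs_nonneg _)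
          _ = |G i l| := mul_one _
      have h6 : G i k ≤ S := by
        refine le_trans (le_abs_self _) (le_trans ?_ (hrow i))
        exact Finset.single_le_sum (f := fun l => |G i l|) (fun l _ => abs_nonneg _)
          (Finset.mem_univ k)
      have h7 := hrow i
      rw [h1]
      linarith
    refine ⟨U * addCol k t, by rw [Matrix.det_mul, hU, addCol_det k t htk, one_mul], ?_⟩
    intro i j hij hi hj
    by_cases hik : i = k
    · have hjk : j < k := by
        have h1 : j ≠ k := fun h' => hij (hik.trans h'.symm)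
        have h2 : (j : ℕ) ≠ m := fun h' => h1 (Fin.ext h')
        show (j : ℕ) < m
        omega
      rw [gram_symm, hik]
      exact hnew j hjk
    · by_cases hjk : j = k
      · have hik' : i < k := by
          have h2 : (i : ℕ) ≠ m := fun h' => hik (Fin.ext h')
          show (i : ℕ) < m
          omega
        rw [hjk]
        exact hnew i hik'
      · rw [gram_addCol A U k t i j hik, if_neg hjk, add_zero]
        have h1 : (i : ℕ) ≠ m := fun h' => hik (Fin.ext h')
        have h2 : (j : ℕ) ≠ m := fun h' => hjk (Fin.ext h')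
        exact h i j hij (by omega) (by omega)

/-- positive weights for positive definite matrices with negative off-diagonal entries -/
theorem exists_weights {n : ℕ} (G : Matrix (Fin n) (Fin n) ℝ)
    (hG : ∀ x : Fin n → ℝ, x ≠ 0 → 0 < rf G x) (hneg : ∀ i j, i ≠ j → G i j < 0) :
    ∃ d : Fin n → ℝ, (∀ i, 0 < d i) ∧ ∀ i, ∑ j ∈ univ.erase i, |G i j| * d j < G i i * d i := by
  classical
  have hdet : G.det ≠ 0 := by
    intro h0
    obtain ⟨x, hx, hGx⟩ := Matrix.exists_mulVec_eq_zero_iff.2 h0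
    have h2 := hG x hx
    rw [rf_eq, hGx] at h2
    simp at h2
  set d : Fin n → ℝ := G⁻¹.mulVec 1 with hd
  have hGd : G.mulVec d = 1 := by
    rw [hd, Matrix.mulVec_mulVec, Matrix.mul_nonsing_inv G (isUnit_iff_ne_zero.2 hdet),
      Matrix.one_mulVec]
  set x : Fin n → ℝ := fun i => max (-d i) 0 with hx
  set y : Fin n → ℝ := fun i => max (d i) 0 with hy
  have hx0 : ∀ i, 0 ≤ x i := fun i => le_max_right _ _
  have hy0 : ∀ i, 0 ≤ y i := fun i => le_max_right _ _
  have hxy : ∀ i, x i * y i = 0 := by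
    intro i
    rcases le_total 0 (d i) with h | h
    · have : x i = 0 := max_eq_right (by linarith)
      rw [this, zero_mul]
    · have : y i = 0 := max_eq_right h
      rw [this, mul_zero]
  have hdxy : ∀ i, d i = y i - x i := by
    intro i
    rcases le_total 0 (d i) with h | h
    · have h1 : x i = 0 := max_eq_right (by linarith)
      have h2 : y i = d i := max_eq_left h
      rw [h1, h2]; ring
    · have h1 : y i = 0 := max_eq_right h
      have h2 : x i = -d i := max_eq_left (by linarith)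
      rw [h1, h2]; ring
  have hkey : ∑ i, x i = ∑ i, ∑ j, x i * G i j * y j - rf G x := by
    have h1 : ∑ i, x i = ∑ i, x i * (G.mulVec d) i := by
      rw [hGd]; simp
    rw [h1]
    unfold rf
    rw [← Finset.sum_sub_distrib]
    refine Finset.sum_congr rfl fun i _ => ?_
    rw [← Finset.sum_sub_distrib]
    have h2 : (G.mulVec d) i = ∑ j, G i j * d j := rfl
    rw [h2, Finset.mul_sum]
    refine Finset.sum_congr rfl fun j _ => ?_
    rw [hdxy j]; ring
  have hcross : ∑ i, ∑ j, x i * G i j * y j ≤ 0 := by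
    refine Finset.sum_nonpos fun i _ => Finset.sum_nonpos fun j _ => ?_
    by_cases hij : i = j
    · subst hij
      have : x i * G i i * y i = G i i * (x i * y i) := by ring
      rw [this, hxy i, mul_zero]
    · have h1 := (hneg i j hij).le
      have h2 := mul_nonneg (hx0 i) (hy0 j)
      nlinarith
  have hxz : x = 0 := by
    by_contra hne
    have h1 := hG x hne
    have h2 : 0 ≤ ∑ i, x i := Finset.sum_nonneg fun i _ => hx0 i
    linarith
  have hd0 : ∀ i, 0 ≤ d i := by
    intro i
    have h1 : x i = 0 := by rw [hxz]; rfl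
    rw [hdxy i, h1, sub_zero]
    exact hy0 i
  have hrow : ∀ i, G i i * d i + ∑ j ∈ univ.erase i, G i j * d j = 1 := by
    intro i
    rw [Finset.add_sum_erase _ (fun j => G i j * d j) (Finset.mem_univ i)]
    exact congrFun hGd i
  refine ⟨d, fun i => ?_, fun i => ?_⟩
  · rcases (hd0 i).lt_or_eq with h | h
    · exact h
    · exfalso
      have h1 := hrow i
      rw [← h, mul_zero, zero_add] at h1
      have h2 : ∑ j ∈ univ.erase i, G i j * d j ≤ 0 :=
        Finset.sum_nonpos fun j hj => by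
          have h3 := (hneg i j (Finset.ne_of_mem_erase hj).symm).le
          have h4 := hd0 j
          nlinarith
      linarith
  · have h1 : ∑ j ∈ univ.erase i, |G i j| * d j = -∑ j ∈ univ.erase i, G i j * d j := by
      rw [← Finset.sum_neg_distrib]
      refine Finset.sum_congr rfl fun j hj => ?_
      rw [abs_of_neg (hneg i j (Finset.ne_of_mem_erase hj).symm)]
      ring
    rw [h1]
    linarith [hrow i]

/-- rounding the weights to integers -/
theorem exists_nat_weights {n : ℕ} (G : Matrix (Fin n) (Fin n) ℝ) (d : Fin n → ℝ)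
    (hd : ∀ i, 0 < d i) (h : ∀ i, ∑ j ∈ univ.erase i, |G i j| * d j < G i i * d i) :
    ∃ e : Fin n → ℕ, (∀ i, 0 < e i) ∧
      ∀ i, ∑ j ∈ univ.erase i, |G i j| * e j < G i i * e i := by
  have hf : ∀ i, Filter.Tendsto (fun x : ℝ => (⌊d i * x⌋₊ : ℝ) / x) Filter.atTop (nhds (d i)) :=
    fun i => tendsto_nat_floor_mul_div_atTop (hd i).le
  have h1 : ∀ i, ∀ᶠ x : ℝ in Filter.atTop, 0 < (⌊d i * x⌋₊ : ℝ) / x := fun i =>
    (hf i).eventually (lt_mem_nhds (hd i))
  have h2 : ∀ i, ∀ᶠ x : ℝ in Filter.atTop,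
      ∑ j ∈ univ.erase i, |G i j| * ((⌊d j * x⌋₊ : ℝ) / x) < G i i * ((⌊d i * x⌋₊ : ℝ) / x) := by
    intro i
    have h3 : Filter.Tendsto (fun x : ℝ => ∑ j ∈ univ.erase i, |G i j| * ((⌊d j * x⌋₊ : ℝ) / x))
        Filter.atTop (nhds (∑ j ∈ univ.erase i, |G i j| * d j)) :=
      tendsto_finsetSum _ fun j _ => (hf j).const_mul _
    have h4 : Filter.Tendsto (fun x : ℝ => G i i * ((⌊d i * x⌋₊ : ℝ) / x))
        Filter.atTop (nhds (G i i * d i)) := (hf i).const_mul _
    exact h3.eventually_lt h4 (h i)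
  obtain ⟨x, hx0, hx1, hx2⟩ := ((Filter.eventually_gt_atTop (0 : ℝ)).and
    ((Filter.eventually_all.2 h1).and (Filter.eventually_all.2 h2))).exists
  refine ⟨fun i => ⌊d i * x⌋₊, fun i => ?_, fun i => ?_⟩
  · have h5 := (div_pos_iff_of_pos_right hx0).1 (hx1 i)
    exact_mod_cast h5
  · have h5 := hx2 i
    have h6 : ∑ j ∈ univ.erase i, |G i j| * ((⌊d j * x⌋₊ : ℝ) / x)
        = (∑ j ∈ univ.erase i, |G i j| * (⌊d j * x⌋₊ : ℝ)) / x := by
      rw [Finset.sum_div]
      exact Finset.sum_congr rfl fun j _ => by ring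
    rw [h6, ← mul_div_assoc] at h5
    exact (div_lt_div_iff_of_pos_right hx0).1 h5

/-- every lattice has an obtuse basis and integral weights for which it is dominated -/
theorem exists_basis_weights {n : ℕ} (A : Matrix (Fin n) (Fin n) ℝ) (hA : A.det ≠ 0) :
    ∃ U : Matrix (Fin n) (Fin n) ℤ, U.det = 1 ∧ (∀ i j, i ≠ j → gram A U i j < 0) ∧
      ∃ d : Fin n → ℕ, (∀ i, 0 < d i) ∧
        ∀ i, ∑ j ∈ univ.erase i, |gram A U i j| * d j < gram A U i i * d i := by
  obtain ⟨U, hU, h⟩ := exists_obtuse A hA n le_rfl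
  have hneg : ∀ i j, i ≠ j → gram A U i j < 0 := fun i j hij => h i j hij i.isLt j.isLt
  obtain ⟨d, hd, h1⟩ := exists_weights (gram A U)
    (gram_pos A hA U (by rw [hU]; norm_num)) hneg
  exact ⟨U, hU, hneg, exists_nat_weights _ d hd h1⟩

/-- **Integral weights.** -/
theorem gam_le_weights {n : ℕ} (hn : 3 ≤ n) (A : Matrix (Fin n) (Fin n) ℝ) (hA : A.det ≠ 0)
    (U : Matrix (Fin n) (Fin n) ℤ) (hU : U.det ≠ 0) (d : Fin n → ℕ) (hd : ∀ i, 0 < d i)
    (h : ∀ i, ∑ j ∈ univ.erase i, |gram A U i j| * d j ≤ gram A U i i * d i) :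
    gam A ≤ 2 ^ (1 - (2 : ℝ) / n) * (|(U.det : ℝ)| * ∏ i, (d i : ℝ)) ^ ((2 : ℝ) / n) := by
  set E : Matrix (Fin n) (Fin n) ℤ := Matrix.diagonal (fun i => (d i : ℤ)) with hE
  have hEdet : E.det = ∏ i, (d i : ℤ) := by rw [hE, Matrix.det_diagonal]
  have hE0 : E.det ≠ 0 := by
    rw [hEdet]
    exact Finset.prod_ne_zero_iff.2 fun i _ => by exact_mod_cast (hd i).ne'
  have hent : ∀ i j, gram A (U * E) i j = d i * gram A U i j * d j := by
    intro i j
    rw [gram_mul]
    have h1 : E.map (fun z : ℤ => (z : ℝ)) = Matrix.diagonal (fun i => (d i : ℝ)) := by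
      ext a b
      simp only [hE, Matrix.map_apply, Matrix.diagonal_apply]
      split_ifs <;> simp
    rw [h1, Matrix.diagonal_transpose, Matrix.mul_diagonal, Matrix.diagonal_mul]
  have h2 := gam_le hn A hA (U * E) (by rw [Matrix.det_mul]; exact mul_ne_zero hU hE0)
    (fun i => by
      unfold RowDom
      simp only [hent]
      have h3 : ∑ j ∈ univ.erase i, |(d i : ℝ) * gram A U i j * d j|
          = d i * ∑ j ∈ univ.erase i, |gram A U i j| * d j := by
        rw [Finset.mul_sum]
        refine Finset.sum_congr rfl fun j _ => ?_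
        have h31 : |(d i : ℝ)| = d i := abs_of_nonneg (Nat.cast_nonneg _)
        have h32 : |(d j : ℝ)| = d j := abs_of_nonneg (Nat.cast_nonneg _)
        rw [abs_mul, abs_mul, h31, h32]
        ring
      rw [h3, one_mul]
      have h4 := mul_le_mul_of_nonneg_left (h i) (Nat.cast_nonneg (α := ℝ) (d i))
      linarith)
  refine h2.trans (le_of_eq ?_)
  congr 2
  rw [Matrix.det_mul, hEdet]
  push_cast
  rw [abs_mul]
  congr 1
  rw [abs_of_nonneg]
  exact Finset.prod_nonneg fun i _ => Nat.cast_nonneg _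

end Pool.Agent.H6.DD
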