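import Pool.Agent.H6.DD.Bound

/-!
# Every lattice has a basis with all rows but one of the Gram matrix dominated (helper6)
-/

set_option autoImplicit false

open Matrix Finset

open scoped RealInnerProductSpace

namespace Pool.Agent.H6.DD

/-- the geometric part -/
lemma near_orthogonal {n : ℕ} {E : Type*} [NormedAddCommGroup E] [InnerProductSpace ℝ E]
    (b q r : Fin n → E) (T R : ℝ) (hR : 0 ≤ R) (hT : 0 ≤ T) (i : Fin n) (hi : (i : ℕ) ≠ 0)
    (hq : ∀ k : Fin n, ‖q k‖ = 1)
    (hqq : ∀ k l : Fin n, (k : ℕ) ≠ 0 → (l : ℕ) ≠ 0 → k ≠ l → ⟪q k, q l⟫ = 0)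
    (hr : ∀ k, ‖r k‖ ≤ R) (hb : ∀ k : Fin n, (k : ℕ) ≠ 0 → b k = T • q k + r k)
    (hb0 : ∀ k : Fin n, (k : ℕ) = 0 → ‖b k‖ ≤ R) :
    ∑ j ∈ univ.erase i, |⟪b i, b j⟫| ≤ n * (2 * T * R + R ^ 2) ∧
      T ^ 2 - 2 * T * R ≤ ⟪b i, b i⟫ := by
  have hqr : ∀ k l : Fin n, |⟪q k, r l⟫| ≤ R := fun k l =>
    (abs_real_inner_le_norm _ _).trans (by rw [hq k, one_mul]; exact hr l)
  have hrr : ∀ k l : Fin n, |⟪r k, r l⟫| ≤ R ^ 2 := fun k l =>
    (abs_real_inner_le_norm _ _).trans (by
      rw [pow_two]; exact mul_le_mul (hr k) (hr l) (norm_nonneg _) hR)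
  have hexp : ∀ k l : Fin n, (k : ℕ) ≠ 0 → (l : ℕ) ≠ 0 →
      ⟪b k, b l⟫ = T ^ 2 * ⟪q k, q l⟫ + T * (⟪q k, r l⟫ + ⟪q l, r k⟫) + ⟪r k, r l⟫ := by
    intro k l hk hl
    rw [hb k hk, hb l hl, inner_add_left, inner_add_right, inner_add_right, real_inner_smul_left,
      real_inner_smul_left, real_inner_smul_right, real_inner_smul_right,
      real_inner_comm (q l) (r k)]
    ring
  constructor
  · have h1 : ∀ j ∈ univ.erase i, |⟪b i, b j⟫| ≤ 2 * T * R + R ^ 2 := by
      intro j hj
      have hij : i ≠ j := (Finset.ne_of_mem_erase hj).symm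
      by_cases hj0 : (j : ℕ) = 0
      · refine (abs_real_inner_le_norm _ _).trans ?_
        have h2 : ‖b i‖ ≤ T + R := by
          rw [hb i hi]
          refine (norm_add_le _ _).trans ?_
          rw [norm_smul, hq i, mul_one, Real.norm_of_nonneg hT]
          linarith [hr i]
        have h3 := hb0 j hj0
        have h4 : ‖b i‖ * ‖b j‖ ≤ (T + R) * R :=
          mul_le_mul h2 h3 (norm_nonneg _) (by positivity)
        nlinarith [mul_nonneg hT hR]
      · rw [hexp i j hi hj0, hqq i j hi hj0 hij, mul_zero, zero_add]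
        refine (abs_add_le _ _).trans ?_
        rw [abs_mul, abs_of_nonneg hT]
        have h2 : |⟪q i, r j⟫ + ⟪q j, r i⟫| ≤ 2 * R := by
          refine (abs_add_le _ _).trans ?_
          linarith [hqr i j, hqr j i]
        have h3 := mul_le_mul_of_nonneg_left h2 hT
        linarith [hrr i j]
    calc ∑ j ∈ univ.erase i, |⟪b i, b j⟫| ≤ ∑ j ∈ univ.erase i, (2 * T * R + R ^ 2) :=
          Finset.sum_le_sum h1
      _ ≤ ∑ _j : Fin n, (2 * T * R + R ^ 2) :=
          Finset.sum_le_sum_of_subset_of_nonneg (Finset.subset_univ _)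
            fun _ _ _ => by positivity
      _ = n * (2 * T * R + R ^ 2) := by simp [mul_add]
  · rw [hexp i i hi hi]
    have h1 : ⟪q i, q i⟫ = 1 := by rw [real_inner_self_eq_norm_sq, hq i]; norm_num
    have h2 : 0 ≤ ⟪r i, r i⟫ := real_inner_self_nonneg
    have h3 := (abs_le.1 (hqr i i)).1
    rw [h1]
    nlinarith [mul_le_mul_of_nonneg_left h3 hT]

/-- **All rows but one.** Every lattice has a basis for which all rows of the Gram matrix, except
the first one, are dominated by their diagonal elements, with any given factor `ε > 0`. -/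
theorem exists_basis {n : ℕ} (A : Matrix (Fin n) (Fin n) ℝ) (hA : A.det ≠ 0) (ε : ℝ)
    (hε : 0 < ε) : ∃ U : Matrix (Fin n) (Fin n) ℤ, U.det = 1 ∧
      ∀ i : Fin n, (i : ℕ) ≠ 0 → RowDom ε (gram A U) i := by
  classical
  set f : Fin n → EuclideanSpace ℝ (Fin n) := fun j => WithLp.toLp 2 (fun i => A i j) with hf
  have hli : LinearIndependent ℝ f := by
    have h1 : LinearIndependent ℝ A.col :=
      Matrix.linearIndependent_cols_iff_isUnit.2 ((Matrix.isUnit_iff_isUnit_det A).2
        (isUnit_iff_ne_zero.2 hA))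
    exact h1.map' (WithLp.linearEquiv 2 ℝ (Fin n → ℝ)).symm.toLinearMap (LinearEquiv.ker _)
  set Q := InnerProductSpace.gramSchmidtNormed ℝ f with hQ
  have hon : Orthonormal ℝ Q := InnerProductSpace.gramSchmidtNormed_orthonormal hli
  have hmem : ∀ c : Fin n, Q c ∈ Submodule.span ℝ (f '' ((Finset.Iic c : Finset (Fin n)) : Set (Fin n))) := by
    intro c
    have h1 : Q c ∈ Submodule.span ℝ (Q '' Set.Iic c) :=
      Submodule.subset_span ⟨c, le_refl c, rfl⟩
    rw [hQ, InnerProductSpace.span_gramSchmidtNormed, InnerProductSpace.span_gramSchmidt_Iic] at h1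
    rw [Finset.coe_Iic]
    exact h1
  have hc : ∀ c : Fin n, ∃ a : Fin n → ℝ, ∑ i ∈ Finset.Iic c, a i • f i = Q c := by
    intro c
    obtain ⟨a, ha⟩ := (Submodule.mem_span_image_finset_iff_exists_fun' ℝ).1 (hmem c)
    exact ⟨a, ha⟩
  choose a ha using hc
  -- predecessor
  set pr : Fin n → Fin n := fun k => ⟨k - 1, by omega⟩ with hpr
  set R : ℝ := ∑ j, ‖f j‖ with hR
  have hR0 : 0 ≤ R := Finset.sum_nonneg fun _ _ => norm_nonneg _
  set T : ℝ := 3 * R + 3 * n * R / ε + 1 with hT
  have hT0 : 0 ≤ T := by positivity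
  set t : Fin n → Fin n → ℤ := fun j k => round (T * a (pr k) j) with ht
  set U : Matrix (Fin n) (Fin n) ℤ := fun j k => if j = k then 1 else if j < k then t j k else 0
    with hU
  refine ⟨U, ?_, ?_⟩
  · rw [Matrix.det_of_isUpperTriangular]
    · simp [hU]
    · intro i j hij
      have hij' : j < i := hij
      simp [hU, hij'.ne', hij'.not_gt]
  -- the new basis
  set b : Fin n → EuclideanSpace ℝ (Fin n) := fun k => ∑ j, (U j k : ℝ) • f j with hb
  have hgram : ∀ k l, gram A U k l = ⟪b k, b l⟫ := by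
    intro k l
    unfold gram
    rw [Matrix.mul_apply, PiLp.inner_apply]
    refine Finset.sum_congr rfl fun i _ => ?_
    have h1 : ∀ k, (b k) i = (A * U.map (fun z : ℤ => (z : ℝ))) i k := by
      intro k
      rw [Matrix.mul_apply]
      simp only [hb, hf, WithLp.ofLp_sum, WithLp.ofLp_smul, Finset.sum_apply, Pi.smul_apply,
        smul_eq_mul, Matrix.map_apply]
      exact Finset.sum_congr rfl fun j _ => mul_comm _ _
    rw [Matrix.transpose_apply, ← h1 k, ← h1 l]
    simp [mul_comm]
  set r : Fin n → EuclideanSpace ℝ (Fin n) := fun k => b k - T • Q (pr k) with hr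
  have hsplit : ∀ k : Fin n, b k = f k + ∑ j ∈ Finset.Iio k, (t j k : ℝ) • f j := by
    intro k
    have h1 : ∀ j, (U j k : ℝ) • f j = (if j = k then f k else 0)
        + (if j < k then (t j k : ℝ) • f j else 0) := by
      intro j
      simp only [hU]
      by_cases h1 : j = k
      · subst h1; simp
      · by_cases h2 : j < k
        · simp [h1, h2]
        · simp [h1, h2]
    simp only [hb, h1, Finset.sum_add_distrib, Finset.sum_ite_eq', Finset.mem_univ, if_true]
    congr 1
    rw [← Finset.sum_filter]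
    congr 1
    ext j
    simp
  have hrk : ∀ k : Fin n, (k : ℕ) ≠ 0 → ‖r k‖ ≤ R := by
    intro k hk
    have h1 : Finset.Iio k = Finset.Iic (pr k) := by
      ext j
      simp only [Finset.mem_Iio, Finset.mem_Iic, hpr, Fin.lt_def, Fin.le_def]
      omega
    have h2 : r k = f k + ∑ j ∈ Finset.Iio k, ((t j k : ℝ) - T * a (pr k) j) • f j := by
      simp only [hr]
      rw [hsplit k, ← ha (pr k), ← h1, Finset.smul_sum]
      simp only [sub_smul, Finset.sum_sub_distrib, mul_smul]
      abel
    rw [h2]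
    refine (norm_add_le _ _).trans ?_
    have h3 : ‖∑ j ∈ Finset.Iio k, ((t j k : ℝ) - T * a (pr k) j) • f j‖
        ≤ ∑ j ∈ Finset.Iio k, ‖f j‖ := by
      refine (norm_sum_le _ _).trans (Finset.sum_le_sum fun j _ => ?_)
      rw [norm_smul]
      have h4 : ‖(t j k : ℝ) - T * a (pr k) j‖ ≤ 1 := by
        rw [Real.norm_eq_abs, abs_sub_comm]
        exact (abs_sub_round _).trans (by norm_num)
      exact mul_le_of_le_one_left (norm_nonneg _) h4
    have h5 : ‖f k‖ + ∑ j ∈ Finset.Iio k, ‖f j‖ ≤ R := by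
      rw [hR, ← Finset.sum_insert (f := fun j => ‖f j‖) (by simp : k ∉ Finset.Iio k)]
      exact Finset.sum_le_sum_of_subset_of_nonneg (Finset.subset_univ _)
        fun _ _ _ => norm_nonneg _
    linarith
  intro i hi
  -- modify r at 0
  have key := near_orthogonal b (fun k => Q (pr k)) (fun k => if (k : ℕ) = 0 then 0 else r k) T R
    hR0 hT0 i hi (fun k => hon.1 _) (fun k l hk hl hkl => hon.2 (by
      intro h
      apply hkl
      have := congrArg Fin.val h
      simp only [hpr] at this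
      apply Fin.ext
      omega)) (fun k => by
      by_cases hk : (k : ℕ) = 0
      · simp [hk, hR0]
      · simp only [hk, if_false]; exact hrk k hk) (fun k hk => by
      simp only [hk, if_false, hr]
      abel) (fun k hk => by
      have h1 : Finset.Iio k = ∅ := by
        ext j
        simp only [Finset.mem_Iio, Fin.lt_def, Finset.notMem_empty, iff_false]
        omega
      rw [hsplit k, h1, Finset.sum_empty, add_zero]
      exact Finset.single_le_sum (f := fun j => ‖f j‖) (fun _ _ => norm_nonneg _)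
        (Finset.mem_univ k))
  unfold RowDom
  simp only [hgram]
  refine key.1.trans (le_trans ?_ (mul_le_mul_of_nonneg_left key.2 hε.le))
  have h1 : R ≤ T := by
    have : 0 ≤ 3 * n * R / ε := by positivity
    linarith
  have h2 : (n : ℝ) * (2 * T * R + R ^ 2) ≤ 3 * n * R * T := by
    have h3 : R ^ 2 ≤ R * T := by rw [pow_two]; exact mul_le_mul_of_nonneg_left h1 hR0
    have h4 : 2 * T * R + R ^ 2 ≤ 3 * R * T := by linarith
    have h5 := mul_le_mul_of_nonneg_left h4 (Nat.cast_nonneg (α := ℝ) n)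
    linarith
  refine h2.trans ?_
  have h3 : ε * (3 * n * R / ε) = 3 * n * R := by field_simp
  have h4 : 3 * n * R ≤ ε * (T - 2 * R) := by
    have h5 : T - 2 * R = R + 3 * n * R / ε + 1 := by rw [hT]; ring
    rw [h5]
    have : 0 ≤ ε * (R + 1) := by positivity
    nlinarith
  have h5 := mul_le_mul_of_nonneg_right h4 hT0
  nlinarith

end Pool.Agent.H6.DD
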